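import Pool.Agent.MP_87daae_co.RigidAngle

/-! The base configuration: a cluster of angles, together with the extension property. -/

open Function Real Module
open scoped Topology

namespace Pool.Agent.MP_87daae_co

variable {d : ℕ}

/-- grid point as an index -/
lemma gp_mem (L : ℕ) (τ : ℝ) (n : Fin d → ℕ) (hn : ∀ i, n i ≤ L) :
    InT (TT L τ) (fun k => (n k : ℝ)) := by
  intro i
  exact ⟨n i, 0, hn i, by simp, by simp⟩

theorem local_base (hd : 3 ≤ d) (ε : ℝ) (hε : 0 < ε) (θ : ℝ) (h0 : 0 < θ) (hπ : θ < π) :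
    ∃ δ > 0, ∃ n k : ℕ, d * k ≤ n + ((d + 1).choose 2 + 1) ∧
      ∀ y : Fin n → ℝ, (∀ i, |y i - θ| < δ) → ∃ X : Finset (EE d), X.card = k ∧
        (∀ i, ∃ A ∈ X, ∃ B ∈ X, ∃ C ∈ X, A ≠ B ∧ B ≠ C ∧ A ≠ C ∧
          EuclideanGeometry.angle A B C = y i) ∧
        (∀ β : Fin d → ℝ, (∀ i, ε ≤ β i ∧ β i ≤ π - ε) → ∃ P : EE d, ∀ i,
          ∃ a ∈ X, ∃ b ∈ X, P ≠ a ∧ P ≠ b ∧ a ≠ b ∧ EuclideanGeometry.angle P a b = β i) := by
  classical
  obtain ⟨R, hR⟩ := ext_grid (d := d) (by omega) ε hε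
  set L := 2 * R + 2 with hL
  obtain ⟨τ, N, hN⟩ := rigid_conf (d := d) hd L (by omega) θ h0 hπ
  obtain ⟨n, ta, tb, tc, hcount, hdist, hloc⟩ := local_real (conf d L τ) θ h0 hπ _ N hN
  let U : Set (Lam d L τ → EE d) := {x | (∀ a, ‖x a - conf d L τ a‖ < 1) ∧
    ∀ a b, a ≠ b → x a ≠ x b}
  have hU : U ∈ 𝓝 (conf d L τ) := by
    have e1 : ∀ᶠ x : Lam d L τ → EE d in 𝓝 (conf d L τ), ∀ a, ‖x a - conf d L τ a‖ < 1 := by
      rw [Filter.eventually_all]
      intro a
      have hc : Continuous fun x : Lam d L τ → EE d => ‖x a - conf d L τ a‖ := by fun_prop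
      apply hc.continuousAt.eventually (gt_mem_nhds _)
      simp
    have e2 : ∀ᶠ x : Lam d L τ → EE d in 𝓝 (conf d L τ), ∀ a b, a ≠ b → x a ≠ x b := by
      rw [Filter.eventually_all]
      intro a
      rw [Filter.eventually_all]
      intro b
      by_cases hab : a = b
      · exact Filter.Eventually.of_forall fun x h => absurd hab h
      · have hopen : IsOpen {x : Lam d L τ → EE d | x a ≠ x b} :=
          isOpen_ne_fun (by fun_prop) (by fun_prop)
        have : {x : Lam d L τ → EE d | x a ≠ x b} ∈ 𝓝 (conf d L τ) :=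
          hopen.mem_nhds (fun h => hab (conf_injective d L τ h))
        filter_upwards [this] with x hx _
        exact hx
    exact e1.and e2
  obtain ⟨δ, hδ, hδU⟩ := hloc U hU
  refine ⟨δ, hδ, n, Fintype.card (Lam d L τ), ?_, ?_⟩
  · have h1 : finrank ℝ (EE d) = d := by simp
    have h2 : Fintype.card (Sym2 (Fin d) ⊕ Unit) = (d + 1).choose 2 + 1 := by
      rw [Fintype.card_sum, Sym2.card, Fintype.card_fin]; simp
    rw [h1, h2] at hcount
    exact hcount
  · intro y hy
    obtain ⟨x, ⟨hx1, hx2⟩, hx3⟩ := hδU y hy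
    have hinj : Injective x := by
      intro a b h
      by_contra hab
      exact hx2 a b hab h
    refine ⟨Finset.univ.image x, ?_, ?_, ?_⟩
    · rw [Finset.card_image_of_injective _ hinj, Finset.card_univ]
    · intro i
      obtain ⟨d1, d2, d3⟩ := hdist i
      refine ⟨x (ta i), by simp, x (tb i), by simp, x (tc i), by simp, ?_, ?_, ?_, hx3 i⟩
      · exact fun h => d1 (congrArg _ (hinj h))
      · exact fun h => d2 (congrArg _ (hinj h)).symm
      · exact fun h => d3 (congrArg _ (hinj h))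
    · intro β hβ
      let x' : (Fin d → ℕ) → EE d := fun n =>
        if h : ∀ i, n i ≤ L then x ⟨fun k => (n k : ℝ), gp_mem L τ n h⟩ else 0
      have hx' : ∀ n : Fin d → ℕ, (∀ i, n i ≤ 2 * R) → ‖x' n - gp n‖ ≤ 1 := by
        intro n hn
        have h : ∀ i, n i ≤ L := fun i => (hn i).trans (by omega)
        have e : x' n = x ⟨fun k => (n k : ℝ), gp_mem L τ n h⟩ := dif_pos h
        rw [e]
        exact (hx1 ⟨fun k => (n k : ℝ), gp_mem L τ n h⟩).le
      have hmem : ∀ n : Fin d → ℕ, (∀ i, n i ≤ 2 * R) → x' n ∈ Finset.univ.image x := by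
        intro n hn
        have h : ∀ i, n i ≤ L := fun i => (hn i).trans (by omega)
        have e : x' n = x ⟨fun k => (n k : ℝ), gp_mem L τ n h⟩ := dif_pos h
        rw [e]
        exact Finset.mem_image_of_mem _ (Finset.mem_univ _)
      obtain ⟨P, hP⟩ := hR x' hx' β hβ
      refine ⟨P, fun i => ?_⟩
      obtain ⟨a, b, ha, hb, h1, h2, h3, h4⟩ := hP i
      exact ⟨x' a, hmem a ha, x' b, hmem b hb, h1, h2, h3, h4⟩

end Pool.Agent.MP_87daae_co
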