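import Mathlib

/-! The derivative of the cosine of an angle. -/

namespace Pool.Agent.MP_87daae_co

variable {F : Type*} [NormedAddCommGroup F] [InnerProductSpace ℝ F] {Λ : Type*} [Fintype Λ]

/-- infinitesimal relation expressing that the angle at `b` does not change to first order -/
def Rel (p v : Λ → F) (a b c : Λ) : Prop :=
  (inner ℝ (v a - v b) (p c - p b) + inner ℝ (p a - p b) (v c - v b)) *
      (‖p a - p b‖ ^ 2 * ‖p c - p b‖ ^ 2)
    = inner ℝ (p a - p b) (p c - p b) *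
      (inner ℝ (p a - p b) (v a - v b) * ‖p c - p b‖ ^ 2 +
        ‖p a - p b‖ ^ 2 * inner ℝ (p c - p b) (v c - v b))

/-- cosine of the angle at `b` -/
noncomputable def cosAt (x : Λ → F) (a b c : Λ) : ℝ :=
  inner ℝ (x a - x b) (x c - x b) * (√(‖x a - x b‖ ^ 2 * ‖x c - x b‖ ^ 2))⁻¹

omit [Fintype Λ] in
lemma cosAt_eq (x : Λ → F) (a b c : Λ) :
    cosAt x a b c = inner ℝ (x a - x b) (x c - x b) / (‖x a - x b‖ * ‖x c - x b‖) := by
  unfold cosAt
  rw [← mul_pow, Real.sqrt_sq (by positivity), div_eq_mul_inv]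

lemma deriv_cos (p : Λ → F) (a b c : Λ) (h1 : p a ≠ p b) (h2 : p c ≠ p b) :
    ∃ ℓ : (Λ → F) →L[ℝ] ℝ, HasStrictFDerivAt (fun x : Λ → F => cosAt x a b c) ℓ p ∧
      ∀ v, ℓ v = 0 → Rel p v a b c := by
  let D : Λ → Λ → ((Λ → F) →L[ℝ] F) := fun a b =>
    (ContinuousLinearMap.proj a : (Λ → F) →L[ℝ] F) - ContinuousLinearMap.proj b
  have hD : ∀ a b, HasStrictFDerivAt (fun x : Λ → F => x a - x b) (D a b) p := fun a b =>
    (D a b).hasStrictFDerivAt
  have hDv : ∀ a b v, D a b v = v a - v b := fun a b v => rfl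
  have hA := (hD a b).inner ℝ (hD c b)
  have hBB := (hD a b).inner ℝ (hD a b)
  have hCC := (hD c b).inner ℝ (hD c b)
  have hB : HasStrictFDerivAt (fun x : Λ → F => ‖x a - x b‖ ^ 2)
      ((fderivInnerCLM ℝ (p a - p b, p a - p b)).comp ((D a b).prod (D a b))) p := by
    simpa only [real_inner_self_eq_norm_sq] using hBB
  have hC : HasStrictFDerivAt (fun x : Λ → F => ‖x c - x b‖ ^ 2)
      ((fderivInnerCLM ℝ (p c - p b, p c - p b)).comp ((D c b).prod (D c b))) p := by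
    simpa only [real_inner_self_eq_norm_sq] using hCC
  have hn1 : ‖p a - p b‖ ≠ 0 := norm_ne_zero_iff.mpr (sub_ne_zero.mpr h1)
  have hn2 : ‖p c - p b‖ ≠ 0 := norm_ne_zero_iff.mpr (sub_ne_zero.mpr h2)
  have hpos : 0 < ‖p a - p b‖ ^ 2 * ‖p c - p b‖ ^ 2 := by positivity
  have hS := (hB.mul hC).sqrt hpos.ne'
  have hSne : √(‖p a - p b‖ ^ 2 * ‖p c - p b‖ ^ 2) ≠ 0 := (Real.sqrt_pos.mpr hpos).ne'
  have hI := (hasStrictDerivAt_inv hSne).comp_hasStrictFDerivAt p hS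
  have hG := hA.mul hI
  refine ⟨_, hG, ?_⟩
  intro v hv
  set S := √(‖p a - p b‖ ^ 2 * ‖p c - p b‖ ^ 2) with hSdef
  have hS2 : S ^ 2 = ‖p a - p b‖ ^ 2 * ‖p c - p b‖ ^ 2 := Real.sq_sqrt hpos.le
  simp only [add_apply, smul_apply, Pi.mul_apply,
    ContinuousLinearMap.comp_apply, ContinuousLinearMap.prod_apply, fderivInnerCLM_apply, hDv,
    smul_eq_mul, Function.comp] at hv
  unfold Rel
  rw [← hSdef] at hv
  have e1 : inner ℝ (v a - v b) (p a - p b) = (inner ℝ (p a - p b) (v a - v b) : ℝ) :=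
    real_inner_comm _ _
  have e2 : inner ℝ (v c - v b) (p c - p b) = (inner ℝ (p c - p b) (v c - v b) : ℝ) :=
    real_inner_comm _ _
  rw [e1, e2] at hv
  generalize (inner ℝ (p a - p b) (p c - p b) : ℝ) = A at *
  generalize (inner ℝ (p a - p b) (v a - v b) : ℝ) = B' at *
  generalize (inner ℝ (p c - p b) (v c - v b) : ℝ) = C' at *
  generalize (inner ℝ (p a - p b) (v c - v b) : ℝ) = A₁ at *
  generalize (inner ℝ (v a - v b) (p c - p b) : ℝ) = A₂ at *
  generalize ‖p a - p b‖ ^ 2 = B at *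
  generalize ‖p c - p b‖ ^ 2 = C at *
  have h3 : S ^ 3 * (A * (-(S ^ 2)⁻¹ * (1 / (2 * S) * (B * (C' + C') + C * (B' + B')))) +
      S⁻¹ * (A₁ + A₂)) = -A * (B * C' + C * B') + S ^ 2 * (A₁ + A₂) := by
    field_simp
    ring
  rw [hv] at h3
  rw [← hS2]
  linear_combination -h3

end Pool.Agent.MP_87daae_co
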