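import Pool.Agent.MP_87daae_co.LocalReal

/-! Adding one point with `d` prescribed angles. -/

open scoped Topology
open Real Module

namespace Pool.Agent.MP_87daae_co

/-- the space -/
abbrev EE (d : ℕ) := EuclideanSpace ℝ (Fin d)

variable {d : ℕ}

/-- ideal apexes -/
noncomputable def apex (σ : Fin d → Fin d) (i : Fin d) : EE d := EuclideanSpace.single (σ i) 1

/-- ideal second points -/
noncomputable def axpt (σ : Fin d → Fin d) (α : Fin d → ℝ) (i : Fin d) : EE d :=
  EuclideanSpace.single (σ i) (1 - cos (α i)) + EuclideanSpace.single i (sin (α i))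

lemma inner_single (i : Fin d) (a : ℝ) (w : EE d) :
    inner ℝ (EuclideanSpace.single i a) w = a * w i := by
  rw [EuclideanSpace.inner_single_left]; simp

/-- the ideal configuration -/
noncomputable def ideal (σ : Fin d → Fin d) (α : Fin d → ℝ) : Option (Fin d ⊕ Fin d) → EE d
  | none => 0
  | some (Sum.inl i) => apex σ i
  | some (Sum.inr i) => axpt σ α i

lemma ideal_sub1 (σ : Fin d → Fin d) (α : Fin d → ℝ) (i : Fin d) :
    ideal σ α none - ideal σ α (some (Sum.inl i)) = EuclideanSpace.single (σ i) (-1) := by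
  ext k
  simp only [ideal, apex, PiLp.sub_apply, PiLp.zero_apply, PiLp.single_apply]
  split_ifs <;> simp

lemma ideal_sub2 (σ : Fin d → Fin d) (α : Fin d → ℝ) (i : Fin d) :
    ideal σ α (some (Sum.inr i)) - ideal σ α (some (Sum.inl i)) =
      EuclideanSpace.single (σ i) (-cos (α i)) + EuclideanSpace.single i (sin (α i)) := by
  ext k
  simp only [ideal, apex, axpt, PiLp.sub_apply, PiLp.add_apply, PiLp.single_apply]
  split_ifs <;> ring

lemma norm_sub1 (σ : Fin d → Fin d) (α : Fin d → ℝ) (i : Fin d) :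
    ‖ideal σ α none - ideal σ α (some (Sum.inl i))‖ ^ 2 = 1 := by
  rw [ideal_sub1, ← real_inner_self_eq_norm_sq, inner_single]
  simp

lemma norm_sub2 (σ : Fin d → Fin d) (hσ : ∀ i, σ i ≠ i) (α : Fin d → ℝ) (i : Fin d) :
    ‖ideal σ α (some (Sum.inr i)) - ideal σ α (some (Sum.inl i))‖ ^ 2 = 1 := by
  rw [ideal_sub2, ← real_inner_self_eq_norm_sq, inner_add_left, inner_single, inner_single]
  simp only [PiLp.add_apply, PiLp.single_apply, if_neg (hσ i), if_neg (hσ i).symm,
    if_true]
  nlinarith [sin_sq_add_cos_sq (α i)]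

lemma inner_sub12 (σ : Fin d → Fin d) (hσ : ∀ i, σ i ≠ i) (α : Fin d → ℝ) (i : Fin d) :
    inner ℝ (ideal σ α none - ideal σ α (some (Sum.inl i)))
      (ideal σ α (some (Sum.inr i)) - ideal σ α (some (Sum.inl i))) = cos (α i) := by
  rw [ideal_sub2, ideal_sub1, inner_single]
  simp only [PiLp.add_apply, PiLp.single_apply, if_neg (hσ i), 
    if_true]
  ring

theorem ext_local (σ : Fin d → Fin d) (hσ : ∀ i, σ i ≠ i) (α : Fin d → ℝ)
    (hα : ∀ i, 0 < α i ∧ α i < π) :
    ∃ η > 0, η ≤ 1 / 4 ∧ ∀ β : Fin d → ℝ, (∀ i, |β i - α i| < η) → ∀ a b : Fin d → EE d,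
      (∀ i, ‖a i - apex σ i‖ < η) → (∀ i, ‖b i - axpt σ α i‖ < η) →
      ∃ P : EE d, ∀ i, P ≠ a i ∧ P ≠ b i ∧ a i ≠ b i ∧
        EuclideanGeometry.angle P (a i) (b i) = β i := by
  classical
  have hne1 : ∀ i, ideal σ α none ≠ ideal σ α (some (Sum.inl i)) := by
    intro i h
    have := norm_sub1 σ α i
    rw [h] at this; simp at this
  have hne2 : ∀ i, ideal σ α (some (Sum.inr i)) ≠ ideal σ α (some (Sum.inl i)) := by
    intro i h
    have := norm_sub2 σ hσ α i
    rw [h] at this; simp at this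
  have hex := fun i => deriv_cos (ideal σ α) none (some (Sum.inl i)) (some (Sum.inr i))
    (hne1 i) (hne2 i)
  choose ℓ hℓ hrel using hex
  let R : (Option (Fin d ⊕ Fin d) → EE d) →L[ℝ] (Fin d ⊕ Fin d → EE d) :=
    ContinuousLinearMap.pi fun s => ContinuousLinearMap.proj (some s)
  let Ψ : (Option (Fin d ⊕ Fin d) → EE d) → (Fin d → ℝ) × (Fin d ⊕ Fin d → EE d) :=
    fun x => (fun i => cosAt x none (some (Sum.inl i)) (some (Sum.inr i)), R x)
  let Ψ' : (Option (Fin d ⊕ Fin d) → EE d) →L[ℝ] (Fin d → ℝ) × (Fin d ⊕ Fin d → EE d) :=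
    (ContinuousLinearMap.pi ℓ).prod R
  have hΨ : HasStrictFDerivAt Ψ Ψ' (ideal σ α) := by
    apply HasStrictFDerivAt.prodMk
    · rw [hasStrictFDerivAt_pi]; exact hℓ
    · exact R.hasStrictFDerivAt
  have hinj : Function.Injective (Ψ' : (Option (Fin d ⊕ Fin d) → EE d) →ₗ[ℝ]
      (Fin d → ℝ) × (Fin d ⊕ Fin d → EE d)) := by
    rw [← LinearMap.ker_eq_bot, LinearMap.ker_eq_bot']
    intro v hv
    have h1 : ∀ i, ℓ i v = 0 := fun i => congrFun (congrArg Prod.fst hv) i
    have h2 : ∀ s, v (some s) = 0 := fun s => congrFun (congrArg Prod.snd hv) s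
    have h3 : v none = 0 := by
      ext i
      have hr := hrel i v (h1 i)
      unfold Rel at hr
      rw [h2, h2, norm_sub1, norm_sub2 σ hσ, inner_sub12 σ hσ, ideal_sub1, ideal_sub2,
        inner_single, inner_add_right, real_inner_comm, inner_single, real_inner_comm,
        inner_single] at hr
      simp only [sub_zero, PiLp.zero_apply, mul_zero, add_zero, mul_one, inner_zero_right,
        inner_single] at hr
      have hs : 0 < sin (α i) := sin_pos_of_pos_of_lt_pi (hα i).1 (hα i).2
      have : sin (α i) * (v none) i = 0 := by linear_combination hr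
      simpa [hs.ne'] using this
    funext s
    cases s with
    | none => exact h3
    | some s => exact h2 s
  have hfin : finrank ℝ (Option (Fin d ⊕ Fin d) → EE d) =
      finrank ℝ ((Fin d → ℝ) × (Fin d ⊕ Fin d → EE d)) := by
    simp [Module.finrank_pi_fintype, Module.finrank_prod]
    ring
  have hsurj := (LinearMap.injective_iff_surjective_of_finrank_eq_finrank hfin).mp hinj
  have hrange : Ψ'.range = ⊤ := LinearMap.range_eq_top.mpr hsurj
  have hmap := hΨ.map_nhds_eq_of_surj hrange
  have hU : {x : Option (Fin d ⊕ Fin d) → EE d | ‖x none‖ < 1 / 2} ∈ 𝓝 (ideal σ α) := by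
    apply IsOpen.mem_nhds
    · exact isOpen_lt (by fun_prop) (by fun_prop)
    · simp [ideal]
  have hmem := Filter.image_mem_map (m := Ψ) hU
  rw [hmap] at hmem
  let C : (Fin d → ℝ) × (Fin d ⊕ Fin d → EE d) → (Fin d → ℝ) × (Fin d ⊕ Fin d → EE d) :=
    fun z => (fun i => cos (z.1 i), z.2)
  have hC : Continuous C := by fun_prop
  have hC0 : C (α, fun s => ideal σ α (some s)) = Ψ (ideal σ α) := by
    apply Prod.ext
    · funext i
      show cos (α i) = cosAt _ _ _ _
      unfold cosAt
      rw [norm_sub1, norm_sub2 σ hσ, inner_sub12 σ hσ]; simp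
    · rfl
  rw [← hC0] at hmem
  have e1 := hC.continuousAt.preimage_mem_nhds hmem
  have e2 : ∀ᶠ z : (Fin d → ℝ) × (Fin d ⊕ Fin d → EE d) in
      𝓝 (α, fun s => ideal σ α (some s)), ∀ i, 0 < z.1 i ∧ z.1 i < π := by
    rw [Filter.eventually_all]
    intro i
    have : Continuous fun z : (Fin d → ℝ) × (Fin d ⊕ Fin d → EE d) => z.1 i := by fun_prop
    exact (this.continuousAt.eventually (lt_mem_nhds (hα i).1)).and
      (this.continuousAt.eventually (gt_mem_nhds (hα i).2))
  have e3 := Filter.Eventually.and e1 e2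
  obtain ⟨η, hη, hball⟩ := Metric.eventually_nhds_iff.mp e3
  refine ⟨min η (1 / 4), by positivity, min_le_right _ _, ?_⟩
  intro β hβ a b ha hb
  simp only [lt_min_iff] at hβ ha hb
  let s : Fin d ⊕ Fin d → EE d := Sum.elim a b
  have hdist : dist (β, s) (α, fun s => ideal σ α (some s)) < η := by
    rw [dist_eq_norm, Prod.mk_sub_mk, Prod.norm_def, max_lt_iff]
    constructor
    · rw [pi_norm_lt_iff hη]
      intro i; simpa using (hβ i).1
    · rw [pi_norm_lt_iff hη]
      intro t
      rcases t with i | i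
      · exact (ha i).1
      · exact (hb i).1
  obtain ⟨⟨x, hxU, hx⟩, hβπ⟩ := hball hdist
  refine ⟨x none, ?_⟩
  intro i
  have hx1 : cosAt x none (some (Sum.inl i)) (some (Sum.inr i)) = cos (β i) :=
    congrFun (congrArg Prod.fst hx) i
  have hxa : x (some (Sum.inl i)) = a i := congrFun (congrArg Prod.snd hx) (Sum.inl i)
  have hxb : x (some (Sum.inr i)) = b i := congrFun (congrArg Prod.snd hx) (Sum.inr i)
  have hang : EuclideanGeometry.angle (x none) (a i) (b i) = β i := by
    unfold EuclideanGeometry.angle InnerProductGeometry.angle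
    rw [cosAt_eq, hxa, hxb] at hx1
    simp only [vsub_eq_sub]
    rw [hx1, arccos_cos (hβπ i).1.le (hβπ i).2.le]
  have hnA : ‖apex σ i‖ = 1 := by simp [apex]
  have hAB : ‖axpt σ α i - apex σ i‖ = 1 := by
    have := norm_sub2 σ hσ α i
    have h' : ‖axpt σ α i - apex σ i‖ ^ 2 = 1 := this
    nlinarith [norm_nonneg (axpt σ α i - apex σ i)]
  have hxn : ‖x none‖ < 1 / 2 := hxU
  have hPa : x none ≠ a i := by
    intro h
    have h1 : ‖apex σ i‖ ≤ ‖a i - apex σ i‖ + ‖a i‖ := by
      have := norm_sub_le (a i) (a i - apex σ i)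
      rw [sub_sub_cancel] at this; linarith
    rw [← h] at h1
    have := (ha i).2
    rw [← h] at this
    linarith
  have hab : a i ≠ b i := by
    intro h
    have h1 : ‖axpt σ α i - apex σ i‖ ≤ ‖b i - axpt σ α i‖ + ‖a i - apex σ i‖ := by
      have : axpt σ α i - apex σ i = (a i - apex σ i) - (b i - axpt σ α i) := by
        rw [h]; abel
      rw [this]
      have := norm_sub_le (a i - apex σ i) (b i - axpt σ α i)
      linarith
    linarith [(ha i).2, (hb i).2]
  refine ⟨hPa, ?_, hab, hang⟩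
  intro h
  rw [h] at hang
  rw [EuclideanGeometry.angle_self_of_ne hab.symm] at hang
  exact absurd hang (hβπ i).1.ne

end Pool.Agent.MP_87daae_co
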