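import Pool.Agent.MP_87daae_co.Rigid

/-! Rigidity of the product sets for angles different from `π/2`. -/

open Function

namespace Pool.Agent.MP_87daae_co

variable {d : ℕ}

/-- the coordinate set `{a + b τ}` -/
def TT (L : ℕ) (τ : ℝ) : Set ℝ := {t | ∃ a b : ℕ, a ≤ L ∧ b ≤ L ∧ t = a + b * τ}

/-- the linearised angle relations used for rigidity (`ω = 1`: acute, `ω = -1`: obtuse) -/
def GH (L : ℕ) (τ ω : ℝ) (v : (Fin d → ℝ) → Fin d → ℝ) : Prop :=
  ∀ x, InT (TT L τ) x → ∀ i j, i ≠ j → ∀ s ∈ TT L τ, ∀ δ ε : ℝ, (δ = 1 ∨ δ = -1) →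
    (ε = 1 ∨ ε = -1) → x i + δ ∈ TT L τ → x j + ε * τ ∈ TT L τ → 0 < ω * δ * (s - x i) →
    (1 + τ ^ 2) * (v (update x i s) j - v x j) =
      (s - x i) * (δ * (v (update (update x i (x i + δ)) j (x j + ε * τ)) j - v x j)
        - ε * τ * (v (update (update x i (x i + δ)) j (x j + ε * τ)) i - v x i))

section
variable {L : ℕ} {τ : ℝ}

lemma TT_zero : (0 : ℝ) ∈ TT L τ := ⟨0, 0, by simp, by simp, by simp⟩

lemma TT_one (hL : 2 ≤ L) : (1 : ℝ) ∈ TT L τ := ⟨1, 0, by omega, by simp, by simp⟩

lemma TT_two (hL : 2 ≤ L) : (2 : ℝ) ∈ TT L τ := ⟨2, 0, by omega, by simp, by simp⟩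

lemma TT_max : ((L : ℝ) + L * τ) ∈ TT L τ := ⟨L, L, le_refl _, le_refl _, rfl⟩

lemma TT_max1 (hL : 2 ≤ L) : ((L : ℝ) + L * τ - 1) ∈ TT L τ := by
  refine ⟨L - 1, L, by omega, le_refl _, ?_⟩
  have : ((L - 1 : ℕ) : ℝ) = L - 1 := by
    rw [Nat.cast_sub (by omega)]; simp
  rw [this]; ring

lemma TT_nonneg (hτ : 0 < τ) {t : ℝ} (ht : t ∈ TT L τ) : 0 ≤ t := by
  obtain ⟨a, b, _, _, rfl⟩ := ht
  positivity

lemma TT_le (hτ : 0 < τ) {t : ℝ} (ht : t ∈ TT L τ) : t ≤ (L : ℝ) + L * τ := by
  obtain ⟨a, b, ha, hb, rfl⟩ := ht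
  have ha' : (a : ℝ) ≤ L := by exact_mod_cast ha
  have hb' : (b : ℝ) ≤ L := by exact_mod_cast hb
  nlinarith

lemma TT_partner (hL : 2 ≤ L) {t : ℝ} (ht : t ∈ TT L τ) :
    ∃ ε : ℝ, (ε = 1 ∨ ε = -1) ∧ t + ε * τ ∈ TT L τ := by
  obtain ⟨a, b, ha, hb, rfl⟩ := ht
  by_cases h : b + 1 ≤ L
  · refine ⟨1, Or.inl rfl, a, b + 1, ha, h, ?_⟩
    push_cast; ring
  · refine ⟨-1, Or.inr rfl, a, b - 1, ha, by omega, ?_⟩
    have : ((b - 1 : ℕ) : ℝ) = b - 1 := by
      rw [Nat.cast_sub (by omega)]; simp
    rw [this]; ring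

lemma max_gt (hL : 2 ≤ L) (hτ : 0 < τ) : 2 < (L : ℝ) + L * τ := by
  have : (2 : ℝ) ≤ L := by exact_mod_cast hL
  nlinarith

variable {ω : ℝ} {v : (Fin d → ℝ) → Fin d → ℝ}

lemma stepA (hL : 2 ≤ L) (hτ : 0 < τ) (hω : ω = 1 ∨ ω = -1) (H : GH L τ ω v) :
    ∀ i j, i ≠ j → ∀ x, InT (TT L τ) x → ∀ s ∈ TT L τ,
      v (update x i s) j = v (update x i 0) j + s * slope v i j x := by
  intro i j hij x hx s hs
  have hpos : (0 : ℝ) < 1 + τ ^ 2 := by positivity
  obtain ⟨ε, hε, hpart⟩ := TT_partner hL (hx j)
  rcases hω with rfl | rfl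
  · -- acute
    have h := fun s (hs : s ∈ TT L τ) (hs0 : 0 < s) =>
      H (update x i 0) (hx.update i TT_zero) i j hij s hs 1 ε (Or.inl rfl) hε
        (by simpa using TT_one hL) (by rw [update_of_ne hij.symm]; exact hpart)
        (by simpa using hs0)
    simp only [update_idem, update_self, sub_zero] at h
    have h1 := h 1 (TT_one hL) one_pos
    rcases (TT_nonneg hτ hs).eq_or_lt with h0 | h0
    · subst h0; simp
    · have h2 := h s hs h0
      unfold slope
      have : (1 + τ ^ 2) * (v (update x i s) j - v (update x i 0) j) =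
          (1 + τ ^ 2) * (s * (v (update x i 1) j - v (update x i 0) j)) := by
        rw [h2]
        rw [one_mul] at h1
        rw [← h1]; ring
      have := mul_left_cancel₀ hpos.ne' this
      linarith
  · -- obtuse
    set M : ℝ := (L : ℝ) + L * τ with hM
    have hM2 : 2 < M := max_gt hL hτ
    have h := fun s (hs : s ∈ TT L τ) (hs0 : 1 < s) =>
      H (update x i 1) (hx.update i (TT_one hL)) i j hij s hs (-1) ε (Or.inr rfl) hε
        (by simpa using TT_zero) (by rw [update_of_ne hij.symm]; exact hpart)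
        (by simp; linarith)
    have h' := fun s (hs : s ∈ TT L τ) (hs0 : s < M - 1) =>
      H (update x i (M - 1)) (hx.update i (TT_max1 hL)) i j hij s hs 1 ε (Or.inl rfl) hε
        (by simpa using TT_max) (by rw [update_of_ne hij.symm]; exact hpart)
        (by simp; linarith)
    simp only [update_idem, update_self] at h h'
    generalize hC : ((-1 : ℝ) * (v (update (update x i (1 + -1)) j (update x i 1 j + ε * τ)) j -
        v (update x i 1) j) - ε * τ * (v (update (update x i (1 + -1)) j
          (update x i 1 j + ε * τ)) i - v (update x i 1) i)) = C at h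
    generalize hC' : ((1 : ℝ) * (v (update (update x i (M - 1 + 1)) j
        (update x i (M - 1) j + ε * τ)) j - v (update x i (M - 1)) j) - ε * τ *
          (v (update (update x i (M - 1 + 1)) j (update x i (M - 1) j + ε * τ)) i -
            v (update x i (M - 1)) i)) = C' at h'
    have a1 := h (M - 1) (TT_max1 hL) (by linarith)
    have a2 := h' 1 (TT_one hL) (by linarith)
    have hCC : C = C' := by
      have : (M - 2) * C = (M - 2) * C' := by linarith
      exact mul_left_cancel₀ (by linarith) this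
    have hall : ∀ s ∈ TT L τ, (1 + τ ^ 2) * (v (update x i s) j - v (update x i 1) j)
        = (s - 1) * C := by
      intro s hs
      rcases lt_or_ge 1 s with h1 | h1
      · exact h s hs h1
      · have := h' s hs (by linarith)
        rw [← hCC] at this a2
        linarith
    have b0 := hall 0 TT_zero
    have bs := hall s hs
    unfold slope
    have : (1 + τ ^ 2) * (v (update x i s) j) =
          (1 + τ ^ 2) * (v (update x i 0) j + s * (v (update x i 1) j - v (update x i 0) j)) := by
      linear_combination bs + (s - 1) * b0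
    exact mul_left_cancel₀ hpos.ne' this

lemma stepBgood (hL : 2 ≤ L) (hτ : 0 < τ) (hω : ω = 1 ∨ ω = -1) (H : GH L τ ω v) :
    ∀ i j, i ≠ j → ∀ x, InT (TT L τ) x → ∀ δ ε : ℝ, (δ = 1 ∨ δ = -1) →
    (ε = 1 ∨ ε = -1) → x i + δ ∈ TT L τ → x j + ε * τ ∈ TT L τ →
    (ω = 1 ∨ (δ = 1 ∧ 0 < x i) ∨ (δ = -1 ∧ x i < (L : ℝ) + L * τ)) →
    (1 + τ ^ 2) * slope v i j x =
      (δ * (v (update (update x i (x i + δ)) j (x j + ε * τ)) j - v x j)
        - ε * τ * (v (update (update x i (x i + δ)) j (x j + ε * τ)) i - v x i)) := by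
  intro i j hij x hx δ ε hδ hε hi hj hG
  have A := stepA hL hτ hω H i j hij x hx
  have main : ∀ s ∈ TT L τ, s ≠ x i → 0 < ω * δ * (s - x i) →
     (1 + τ ^ 2) * slope v i j x =
      (δ * (v (update (update x i (x i + δ)) j (x j + ε * τ)) j - v x j)
        - ε * τ * (v (update (update x i (x i + δ)) j (x j + ε * τ)) i - v x i)) := by
    intro s hs hne hpos
    have h := H x hx i j hij s hs δ ε hδ hε hi hj hpos
    have e1 := A s hs
    have e2 := A (x i) (hx i)
    rw [update_eq_self] at e2
    rw [e1] at h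
    have h3 : v (update x i 0) j + s * slope v i j x - v x j = (s - x i) * slope v i j x := by
      rw [e2]; ring
    rw [h3] at h
    have h4 : (s - x i) * ((1 + τ ^ 2) * slope v i j x) = (s - x i) *
      (δ * (v (update (update x i (x i + δ)) j (x j + ε * τ)) j - v x j)
        - ε * τ * (v (update (update x i (x i + δ)) j (x j + ε * τ)) i - v x i)) := by
      rw [← h]; ring
    exact mul_left_cancel₀ (sub_ne_zero.mpr hne) h4
  rcases hω with rfl | rfl
  · apply main (x i + δ) hi
    · rcases hδ with rfl | rfl <;> intro h <;> linarith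
    · rcases hδ with rfl | rfl <;> norm_num
  · rcases hG with hG | ⟨rfl, h0⟩ | ⟨rfl, h0⟩
    · norm_num at hG
    · apply main 0 TT_zero h0.ne
      linarith
    · apply main _ TT_max h0.ne'
      linarith

lemma stepC (hL : 2 ≤ L) (hτ : 0 < τ) (hω : ω = 1 ∨ ω = -1) (H : GH L τ ω v) :
    ∀ i j, i ≠ j → ∀ x, InT (TT L τ) x → ∀ ε : ℝ,
    (ε = 1 ∨ ε = -1) → x j + ε * τ ∈ TT L τ →
    slope v i j (update x j (x j + ε * τ)) = slope v i j x := by
  intro i j hij x hx ε hε hj
  have hx1 := hx.update i (TT_one (τ := τ) hL)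
  have hji := hij.symm
  have h1 := stepBgood hL hτ hω H i j hij (update x i 1) hx1 1 ε (Or.inl rfl) hε
    (by
      rw [update_self]
      have := TT_two (τ := τ) hL
      norm_num; exact this)
    (by rw [update_of_ne hji]; exact hj)
    (Or.inr (Or.inl ⟨rfl, by simp⟩))
  have hy : InT (TT L τ) (update (update x i 2) j (x j + ε * τ)) :=
    (hx.update i (TT_two hL)).update j hj
  have h2 := stepBgood hL hτ hω H i j hij _ hy (-1) (-ε) (Or.inr rfl)
    (by rcases hε with rfl | rfl <;> simp)
    (by
      rw [update_of_ne hij, update_self]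
      have := TT_one (τ := τ) hL
      norm_num; exact this)
    (by
      rw [update_self]
      have : x j + ε * τ + -ε * τ = x j := by ring
      rw [this]; exact hx j)
    (Or.inr (Or.inr ⟨rfl, by
      rw [update_of_ne hij, update_self]; exact max_gt hL hτ⟩))
  have e0 : update (update (update x i 1) i (update x i 1 i + 1)) j (update x i 1 j + ε * τ)
      = update (update x i 2) j (x j + ε * τ) := by
    rw [update_idem, update_self, update_of_ne hji]; norm_num
  have e1 : update (update (update (update x i 2) j (x j + ε * τ)) i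
      (update (update x i 2) j (x j + ε * τ) i + -1)) j
        (update (update x i 2) j (x j + ε * τ) j + -ε * τ) = update x i 1 := by
    funext k
    by_cases hkj : k = j
    · subst hkj; simp [update_of_ne hji]
    · by_cases hki : k = i
      · subst hki; simp [update_of_ne hij]; norm_num
      · simp [update_of_ne hkj, update_of_ne hki]
  rw [e0, slope_update_self] at h1
  rw [e1] at h2
  have e2 : slope v i j (update (update x i 2) j (x j + ε * τ))
      = slope v i j (update x j (x j + ε * τ)) := by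
    rw [update_comm hij, slope_update_self]
  rw [e2] at h2
  have hpos : (0 : ℝ) < 1 + τ ^ 2 := by positivity
  apply mul_left_cancel₀ hpos.ne'
  rw [h2, h1]; ring

lemma stepB (hL : 2 ≤ L) (hτ : 0 < τ) (hω : ω = 1 ∨ ω = -1) (H : GH L τ ω v) :
    ∀ i j, i ≠ j → ∀ x, InT (TT L τ) x → ∀ δ ε : ℝ, (δ = 1 ∨ δ = -1) →
    (ε = 1 ∨ ε = -1) → x i + δ ∈ TT L τ → x j + ε * τ ∈ TT L τ →
    (1 + τ ^ 2) * slope v i j x =
      (δ * (v (update (update x i (x i + δ)) j (x j + ε * τ)) j - v x j)
        - ε * τ * (v (update (update x i (x i + δ)) j (x j + ε * τ)) i - v x i)) := by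
  intro i j hij x hx δ ε hδ hε hi hj
  have hji := hij.symm
  by_cases hG : (ω = 1 ∨ (δ = 1 ∧ 0 < x i) ∨ (δ = -1 ∧ x i < (L : ℝ) + L * τ))
  · exact stepBgood hL hτ hω H i j hij x hx δ ε hδ hε hi hj hG
  · -- the other end is good
    set y := update (update x i (x i + δ)) j (x j + ε * τ) with hy
    have hyT : InT (TT L τ) y := (hx.update i hi).update j hj
    have hyi : y i = x i + δ := by simp [hy, update_of_ne hij]
    have hyj : y j = x j + ε * τ := by simp [hy]
    have hback : update (update y i (y i + -δ)) j (y j + -ε * τ) = x := by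
      rw [hyi, hyj]
      funext k
      by_cases hkj : k = j
      · subst hkj; simp
      · by_cases hki : k = i
        · subst hki; simp [update_of_ne hij]
        · simp [hy, update_of_ne hkj, update_of_ne hki]
    have hnn := TT_nonneg hτ (hx i)
    have hle := TT_le hτ (hx i)
    have hM2 : 2 < (L : ℝ) + L * τ := max_gt hL hτ
    have h := stepBgood hL hτ hω H i j hij y hyT (-δ) (-ε)
      (by rcases hδ with rfl | rfl <;> simp) (by rcases hε with rfl | rfl <;> simp)
      (by rw [hyi]; simpa using hx i)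
      (by rw [hyj]; have : x j + ε * τ + -ε * τ = x j := by ring
          rw [this]; exact hx j)
      (by
        push Not at hG
        obtain ⟨_, g1, g2⟩ := hG
        right
        rcases hδ with rfl | rfl
        · right
          refine ⟨rfl, ?_⟩
          have := g1 rfl
          rw [hyi]; linarith
        · left
          refine ⟨by norm_num, ?_⟩
          have := g2 rfl
          rw [hyi]; linarith)
    rw [hback] at h
    have e2 : slope v i j y = slope v i j x := by
      rw [hy, update_comm hij, slope_update_self]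
      exact stepC hL hτ hω H i j hij x hx ε hε hj
    rw [e2] at h
    rw [h]; ring

lemma stepD (hL : 2 ≤ L) (hτ : 0 < τ) (hω : ω = 1 ∨ ω = -1) (H : GH L τ ω v) :
    ∀ i j, i ≠ j → ∀ x, InT (TT L τ) x →
      2 * slope v i j x = -(slope v j i (update x i 1) + slope v j i (update x i 0)) := by
  intro i j hij x hx
  have hji := hij.symm
  obtain ⟨ε, hε, hj⟩ := TT_partner hL (hx j)
  have h0 := hx.update i (TT_zero (τ := τ) (L := L))
  have h1 := hx.update i (TT_one (τ := τ) hL)
  have B0 := stepB hL hτ hω H i j hij (update x i 0) h0 1 ε (Or.inl rfl) hε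
    (by rw [update_self]; simpa using TT_one hL) (by rw [update_of_ne hji]; exact hj)
  have B1 := stepB hL hτ hω H i j hij (update x i 1) h1 (-1) ε (Or.inr rfl) hε
    (by rw [update_self]; simpa using TT_zero) (by rw [update_of_ne hji]; exact hj)
  simp only [update_idem, update_self, update_of_ne hji, slope_update_self, zero_add,
    add_neg_cancel] at B0 B1
  have C := stepC hL hτ hω H i j hij x hx ε hε hj
  have A0 := stepA hL hτ hω H j i hji (update x i 0) h0
  have A1 := stepA hL hτ hω H j i hji (update x i 1) h1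
  have A0a := A0 _ hj
  have A0b := A0 _ (hx j)
  have A1a := A1 _ hj
  have A1b := A1 _ (hx j)
  have e0 : update (update x i 0) j (x j) = update x i 0 := by
    funext k; by_cases hk : k = j
    · subst hk; simp [update_of_ne hji]
    · simp [update_of_ne hk]
  have e1 : update (update x i 1) j (x j) = update x i 1 := by
    funext k; by_cases hk : k = j
    · subst hk; simp [update_of_ne hji]
    · simp [update_of_ne hk]
  rw [e0] at A0b
  rw [e1] at A1b
  have hs : slope v i j (update x j (x j + ε * τ)) =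
      v (update (update x i 1) j (x j + ε * τ)) j - v (update (update x i 0) j (x j + ε * τ)) j := by
    unfold slope
    rw [update_comm hij.symm, update_comm hij.symm]
  rw [C] at hs
  have hs2 : slope v i j x = v (update x i 1) j - v (update x i 0) j := rfl
  have hεε : ε * ε = 1 := by rcases hε with rfl | rfl <;> norm_num
  have hτ2 : τ ^ 2 ≠ 0 := by positivity
  apply mul_left_cancel₀ hτ2
  linear_combination B0 + B1 - hs - hs2 + (-ε * τ) * (A1a - A1b + A0a - A0b)
    - τ ^ 2 * (slope v j i (update x i 1) + slope v j i (update x i 0)) * hεε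

lemma stepE (hL : 2 ≤ L) (hτ : 0 < τ) (hω : ω = 1 ∨ ω = -1) (H : GH L τ ω v) :
    ∀ i j, i ≠ j → ∀ x, InT (TT L τ) x → slope v i j x = - slope v j i x := by
  have inv : ∀ i j, i ≠ j → ∀ x, InT (TT L τ) x → ∀ t ∈ TT L τ,
      slope v i j (update x j t) = slope v i j x := by
    intro i j hij x hx t ht
    have h1 := stepD hL hτ hω H i j hij x hx
    have h2 := stepD hL hτ hω H i j hij (update x j t) (hx.update j ht)
    have e : ∀ a : ℝ, slope v j i (update (update x j t) i a) = slope v j i (update x i a) := by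
      intro a
      rw [update_comm hij.symm, slope_update_self]
    rw [e, e] at h2
    linarith
  intro i j hij x hx
  have h1 := stepD hL hτ hω H i j hij x hx
  rw [inv j i hij.symm x hx 1 (TT_one hL), inv j i hij.symm x hx 0 TT_zero] at h1
  linarith

end

section final

variable {T : Set ℝ} {v : (Fin d → ℝ) → Fin d → ℝ}

/-- all slopes vanish after normalisation -/
lemma slope_zero (h0 : (0 : ℝ) ∈ T) (h1 : (1 : ℝ) ∈ T)
    (hA : ∀ i j, i ≠ j → ∀ x, InT T x → ∀ s ∈ T,
      v (update x i s) j = v (update x i 0) j + s * slope v i j x)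
    (hB : ∀ i j, i ≠ j → ∀ x, InT T x → slope v i j x = - slope v j i x)
    (N0 : v 0 = 0) (N1 : ∀ i j, i < j → v (update 0 i 1) j = 0) :
    ∀ i j, i ≠ j → ∀ x, InT T x → slope v i j x = 0 := by
  have hz : InT T (0 : Fin d → ℝ) := fun _ => h0
  have e0 : ∀ i : Fin d, update (0 : Fin d → ℝ) i 0 = 0 := by
    intro i; funext k; by_cases hk : k = i
    · subst hk; simp
    · simp [update_of_ne hk]
  have base : ∀ i j, i < j → slope v i j 0 = 0 := by
    intro i j hij
    unfold slope
    rw [e0, N0, N1 i j hij]; simp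
  intro i j hij x hx
  rw [slope_const h0 h1 v hA hB i j hij x 0 hx hz]
  rcases lt_or_gt_of_ne hij with h | h
  · exact base i j h
  · rw [hB i j hij 0 hz, base j i h]; simp

/-- the `j`-th component depends on the `j`-th coordinate only -/
lemma comp_dep (h0 : (0 : ℝ) ∈ T)
    (hA : ∀ i j, i ≠ j → ∀ x, InT T x → ∀ s ∈ T,
      v (update x i s) j = v (update x i 0) j + s * slope v i j x)
    (hz : ∀ i j, i ≠ j → ∀ x, InT T x → slope v i j x = 0) :
    ∀ j x, InT T x → v x j = v (update 0 j (x j)) j := by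
  classical
  intro j x hx
  have hzT : InT T (0 : Fin d → ℝ) := fun _ => h0
  apply const_of_update (T := T) (fun x => v x j) (Finset.univ.erase j) _ x _ hx
    (hzT.update j (hx j))
  · intro k hk
    have : k = j := by simpa using hk
    subst this; simp
  · intro x hx k hk u hu
    have hkj : k ≠ j := by simpa using hk
    have a1 := hA k j hkj x hx u hu
    have a2 := hA k j hkj x hx (x k) (hx k)
    rw [hz k j hkj x hx] at a1 a2
    rw [update_eq_self] at a2
    show v (update x k u) j = v x j
    rw [a1, a2]; ring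

end final

/-- **Rigidity, angle different from `π/2`.** -/
theorem rigid_generic {L : ℕ} {τ ω : ℝ} {v : (Fin d → ℝ) → Fin d → ℝ} (hd : 3 ≤ d)
    (hL : 2 ≤ L) (hτ : 0 < τ) (hω : ω = 1 ∨ ω = -1) (H : GH L τ ω v)
    (N0 : v 0 = 0) (N1 : ∀ i j, i < j → v (update 0 i 1) j = 0)
    (i₀ : Fin d) (N2 : v (update 0 i₀ 1) i₀ = 0) :
    ∀ x, InT (TT L τ) x → v x = 0 := by
  classical
  have hA := stepA hL hτ hω H
  have hB := stepE hL hτ hω H
  have hz := slope_zero TT_zero (TT_one hL) hA hB N0 N1
  have hdep := comp_dep TT_zero hA hz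
  have hzT : InT (TT L τ) (0 : Fin d → ℝ) := fun _ => TT_zero
  have e0 : ∀ i : Fin d, update (0 : Fin d → ℝ) i 0 = 0 := by
    intro i; funext k; by_cases hk : k = i
    · subst hk; simp
    · simp [update_of_ne hk]
  -- slants
  have hsl : ∀ i j, i ≠ j → ∀ s t : ℝ, s ∈ TT L τ → s + 1 ∈ TT L τ → t ∈ TT L τ →
      t + τ ∈ TT L τ →
      v (update 0 j (t + τ)) j - v (update 0 j t) j =
        τ * (v (update 0 i (s + 1)) i - v (update 0 i s) i) := by
    intro i j hij s t hs hs1 ht ht1
    have hx : InT (TT L τ) (update (update (0 : Fin d → ℝ) i s) j t) :=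
      (hzT.update i hs).update j ht
    have xi : (update (update (0 : Fin d → ℝ) i s) j t) i = s := by simp [update_of_ne hij]
    have xj : (update (update (0 : Fin d → ℝ) i s) j t) j = t := by simp
    have hy : InT (TT L τ) (update (update (update (update (0 : Fin d → ℝ) i s) j t) i (s + 1)) j
        (t + 1 * τ)) := (hx.update i hs1).update j (by simpa using ht1)
    have B := stepB hL hτ hω H i j hij _ hx 1 1 (Or.inl rfl) (Or.inl rfl)
      (by rw [xi]; exact hs1) (by rw [xj]; simpa using ht1)
    rw [hz i j hij _ hx, xi, xj, hdep j _ hx, hdep i _ hx, hdep j _ hy, hdep i _ hy, xi, xj,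
      update_self, update_of_ne hij, update_self] at B
    simp only [one_mul] at B
    linarith
  have h01 : ∃ j₁ j₂ : Fin d, j₁ ≠ i₀ ∧ j₂ ≠ i₀ ∧ j₁ ≠ j₂ := by
    have hc : 1 < (Finset.univ.erase i₀).card := by
      rw [Finset.card_erase_of_mem (Finset.mem_univ _), Finset.card_univ, Fintype.card_fin]
      omega
    obtain ⟨a, ha, b, hb, hab⟩ := Finset.one_lt_card.mp hc
    exact ⟨a, b, by simpa using ha, by simpa using hb, hab⟩
  obtain ⟨j₁, j₂, hj1, hj2, hj12⟩ := h01
  -- step `τ` vanishes for `j ≠ i₀`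
  have hk : ∀ j, j ≠ i₀ → ∀ t, t ∈ TT L τ → t + τ ∈ TT L τ →
      v (update 0 j (t + τ)) j - v (update 0 j t) j = 0 := by
    intro j hj t ht ht1
    have := hsl i₀ j hj.symm 0 t TT_zero (by simpa using TT_one hL) ht ht1
    rw [this, zero_add, N2, e0, N0]; simp
  have hτT : τ ∈ TT L τ := ⟨0, 1, by simp, by omega, by simp⟩
  -- step `1` vanishes
  have hl : ∀ i s, s ∈ TT L τ → s + 1 ∈ TT L τ →
      v (update 0 i (s + 1)) i - v (update 0 i s) i = 0 := by
    intro i s hs hs1
    have : ∃ j, j ≠ i₀ ∧ i ≠ j := by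
      by_cases h : i = j₁
      · exact ⟨j₂, hj2, by rw [h]; exact hj12⟩
      · exact ⟨j₁, hj1, h⟩
    obtain ⟨j, hj, hij⟩ := this
    have h1 := hsl i j hij s 0 hs hs1 TT_zero (by simpa using hτT)
    rw [hk j hj 0 TT_zero (by simpa using hτT)] at h1
    have := mul_eq_zero.mp h1.symm
    rcases this with h | h
    · exact absurd h hτ.ne'
    · exact h
  have hk' : ∀ j t, t ∈ TT L τ → t + τ ∈ TT L τ →
      v (update 0 j (t + τ)) j - v (update 0 j t) j = 0 := by
    intro j t ht ht1
    have : ∃ i, i ≠ j := by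
      by_cases h : j = j₁
      · exact ⟨j₂, by rw [h]; exact hj12.symm⟩
      · exact ⟨j₁, fun h' => h h'.symm⟩
    obtain ⟨i, hij⟩ := this
    rw [hsl i j hij 0 t TT_zero (by simpa using TT_one hL) ht ht1,
      hl i 0 TT_zero (by simpa using TT_one hL)]; simp
  -- conclusion on the axes
  have hax : ∀ i, ∀ a b : ℕ, a ≤ L → b ≤ L → v (update 0 i ((a : ℝ) + b * τ)) i = 0 := by
    intro i a b
    induction b with
    | zero =>
      induction a with
      | zero => intro _ _; simp [e0, N0]
      | succ a ih =>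
        intro ha hb
        have h1 := ih (by omega) hb
        have := hl i ((a : ℝ) + (0 : ℕ) * τ) ⟨a, 0, by omega, by omega, rfl⟩
          ⟨a + 1, 0, by omega, by omega, by push_cast; ring⟩
        have e : ((a + 1 : ℕ) : ℝ) + (0 : ℕ) * τ = (a : ℝ) + (0 : ℕ) * τ + 1 := by
          push_cast; ring
        rw [e]; linarith
    | succ b ih =>
      intro ha hb
      have h1 := ih ha (by omega)
      have := hk' i ((a : ℝ) + b * τ) ⟨a, b, ha, by omega, rfl⟩
        ⟨a, b + 1, ha, hb, by push_cast; ring⟩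
      have e : (a : ℝ) + ((b + 1 : ℕ) : ℝ) * τ = (a : ℝ) + b * τ + τ := by
        push_cast; ring
      rw [e]; linarith
  intro x hx
  funext j
  rw [hdep j x hx]
  obtain ⟨a, b, ha, hb, hab⟩ := hx j
  rw [hab]
  exact hax j a b ha hb

end Pool.Agent.MP_87daae_co
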