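import Pool.Agent.MP_87daae_co.Ext

/-! Adding one point with `d` prescribed angles to a perturbed grid. -/

open scoped Topology
open Real Module

namespace Pool.Agent.MP_87daae_co

variable {d : ℕ}

lemma exists_common_pos {X : Type*} (t : Finset X) (η : X → ℝ) (h : ∀ x ∈ t, 0 < η x) :
    ∃ η₀ > 0, ∀ x ∈ t, η₀ ≤ η x := by
  classical
  induction t using Finset.induction_on with
  | empty => exact ⟨1, one_pos, by simp⟩
  | insert a t _ ih =>
    obtain ⟨η₀, h0, h1⟩ := ih (fun x hx => h x (by simp [hx]))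
    refine ⟨min η₀ (η a), lt_min h0 (h a (by simp)), ?_⟩
    intro x hx
    rcases Finset.mem_insert.mp hx with rfl | hx
    · exact min_le_right _ _
    · exact (min_le_left _ _).trans (h1 x hx)

theorem ext_uniform (σ : Fin d → Fin d) (hσ : ∀ i, σ i ≠ i) (ε : ℝ) (hε : 0 < ε) :
    ∃ η > 0, ∀ β : Fin d → ℝ, (∀ i, ε ≤ β i ∧ β i ≤ π - ε) →
      ∃ α : Fin d → ℝ, (∀ i, 0 < α i ∧ α i < π) ∧ ∀ a b : Fin d → EE d,
      (∀ i, ‖a i - apex σ i‖ < η) → (∀ i, ‖b i - axpt σ α i‖ < η) →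
      ∃ P : EE d, ∀ i, P ≠ a i ∧ P ≠ b i ∧ a i ≠ b i ∧
        EuclideanGeometry.angle P (a i) (b i) = β i := by
  classical
  let K : Set (Fin d → ℝ) := Set.univ.pi fun _ => Set.Icc ε (π - ε)
  have hK : IsCompact K := isCompact_univ_pi fun _ => isCompact_Icc
  have hKα : ∀ α ∈ K, ∀ i, 0 < α i ∧ α i < π := by
    intro α hα i
    have := hα i (Set.mem_univ i)
    exact ⟨by linarith [this.1], by linarith [this.2]⟩
  have hex : ∀ α : Fin d → ℝ, ∃ η > 0, α ∈ K → η ≤ 1 / 4 ∧ ∀ β : Fin d → ℝ,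
      (∀ i, |β i - α i| < η) → ∀ a b : Fin d → EE d,
      (∀ i, ‖a i - apex σ i‖ < η) → (∀ i, ‖b i - axpt σ α i‖ < η) →
      ∃ P : EE d, ∀ i, P ≠ a i ∧ P ≠ b i ∧ a i ≠ b i ∧
        EuclideanGeometry.angle P (a i) (b i) = β i := by
    intro α
    by_cases hα : α ∈ K
    · obtain ⟨η, h1, h2⟩ := ext_local σ hσ α (hKα α hα)
      exact ⟨η, h1, fun _ => h2⟩
    · exact ⟨1, one_pos, fun h => absurd h hα⟩
  choose η hη hP using hex
  obtain ⟨t, ht, hcov⟩ := hK.elim_nhds_subcover (fun α => Metric.ball α (η α))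
    (fun α _ => Metric.ball_mem_nhds α (hη α))
  obtain ⟨η₀, h0, h1⟩ := exists_common_pos t η (fun α _ => hη α)
  refine ⟨η₀, h0, ?_⟩
  intro β hβ
  have hβK : β ∈ K := fun i _ => hβ i
  have := hcov hβK
  simp only [Set.mem_iUnion] at this
  obtain ⟨α, hαt, hβα⟩ := this
  refine ⟨α, hKα α (ht α hαt), ?_⟩
  intro a b ha hb
  apply (hP α (ht α hαt)).2 β _ a b
  · exact fun i => (ha i).trans_le (h1 α hαt)
  · exact fun i => (hb i).trans_le (h1 α hαt)
  · intro i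
    have := (dist_pi_lt_iff (hη α)).mp hβα i
    rwa [Real.dist_eq] at this

/-- the grid point with natural coordinates -/
noncomputable def gp (n : Fin d → ℕ) : EE d := WithLp.toLp 2 fun k => (n k : ℝ)

lemma norm_le_sqrt (w : EE d) (h : ∀ k, |w k| ≤ 1) : ‖w‖ ≤ √d := by
  rw [EuclideanSpace.norm_eq]
  apply Real.sqrt_le_sqrt
  calc ∑ i, ‖w i‖ ^ 2 ≤ ∑ _i : Fin d, (1 : ℝ) := by
        apply Finset.sum_le_sum
        intro i _
        rw [Real.norm_eq_abs]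
        exact pow_le_one₀ (abs_nonneg _) (h i)
    _ = d := by simp

theorem ext_grid (hd : 2 ≤ d) (ε : ℝ) (hε : 0 < ε) :
    ∃ R : ℕ, ∀ x : (Fin d → ℕ) → EE d, (∀ n, (∀ i, n i ≤ 2 * R) → ‖x n - gp n‖ ≤ 1) →
      ∀ β : Fin d → ℝ, (∀ i, ε ≤ β i ∧ β i ≤ π - ε) → ∃ P : EE d, ∀ i, ∃ a b : Fin d → ℕ,
        (∀ k, a k ≤ 2 * R) ∧ (∀ k, b k ≤ 2 * R) ∧ P ≠ x a ∧ P ≠ x b ∧ x a ≠ x b ∧
        EuclideanGeometry.angle P (x a) (x b) = β i := by
  classical
  let i0 : Fin d := ⟨0, by omega⟩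
  let i1 : Fin d := ⟨1, by omega⟩
  let σ : Fin d → Fin d := fun i => if i = i0 then i1 else i0
  have hσ : ∀ i, σ i ≠ i := by
    intro i
    by_cases h : i = i0
    · simp only [σ, if_pos h, h]
      intro h'; simp [i0, i1, Fin.ext_iff] at h'
    · simp only [σ, if_neg h]; exact fun h' => h h'.symm
  obtain ⟨η, hη, hext⟩ := ext_uniform σ hσ ε hε
  obtain ⟨R, hR⟩ := exists_nat_gt ((1 + √d) / η)
  have hR0 : 0 < (R : ℝ) := lt_of_le_of_lt (by positivity) hR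
  have hRη : (1 + √d) / R < η := by
    rw [div_lt_iff₀ hη] at hR
    rw [div_lt_iff₀ hR0]; linarith
  refine ⟨R, ?_⟩
  intro x hx β hβ
  obtain ⟨α, hα, hP⟩ := hext β hβ
  let nA : Fin d → Fin d → ℕ := fun i k => if k = σ i then R else 0
  let nB : Fin d → Fin d → ℕ := fun i k => ⌊(R : ℝ) * (axpt σ α i k)⌋₊
  have hnA : ∀ i k, nA i k ≤ 2 * R := by
    intro i k
    simp only [nA]; split_ifs <;> omega
  have hcoord : ∀ i k, 0 ≤ axpt σ α i k ∧ axpt σ α i k ≤ 2 := by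
    intro i k
    have hs : 0 < sin (α i) := sin_pos_of_pos_of_lt_pi (hα i).1 (hα i).2
    have hs1 := sin_le_one (α i)
    have hc1 := cos_le_one (α i)
    have hc2 := neg_one_le_cos (α i)
    simp only [axpt, PiLp.add_apply, PiLp.single_apply]
    by_cases h1 : k = σ i
    · have h2 : k ≠ i := by rw [h1]; exact hσ i
      rw [if_pos h1, if_neg h2]
      constructor <;> linarith
    · by_cases h2 : k = i
      · rw [if_neg h1, if_pos h2]
        constructor <;> linarith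
      · rw [if_neg h1, if_neg h2]; norm_num
  have hnB : ∀ i k, nB i k ≤ 2 * R := by
    intro i k
    have := (hcoord i k).2
    have h2 : (R : ℝ) * (axpt σ α i k) ≤ ((2 * R : ℕ) : ℝ) := by
      push_cast; nlinarith
    calc nB i k ≤ ⌊((2 * R : ℕ) : ℝ)⌋₊ := Nat.floor_le_floor h2
      _ = 2 * R := Nat.floor_natCast _
  have hRne : (R : ℝ) ≠ 0 := hR0.ne'
  have hnormR : ‖((R : ℝ)⁻¹)‖ = (R : ℝ)⁻¹ := by
    rw [Real.norm_eq_abs, abs_of_pos (inv_pos.mpr hR0)]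
  have hA : ∀ i, ‖(R : ℝ)⁻¹ • x (nA i) - apex σ i‖ < η := by
    intro i
    have e : (R : ℝ)⁻¹ • x (nA i) - apex σ i = (R : ℝ)⁻¹ • (x (nA i) - gp (nA i)) := by
      rw [smul_sub]
      congr 1
      ext k
      simp only [apex, gp, nA, PiLp.smul_apply, PiLp.single_apply, smul_eq_mul]
      split_ifs
      · rw [inv_mul_cancel₀ hRne]
      · simp
    rw [e, norm_smul, hnormR]
    have h1 := hx (nA i) (hnA i)
    calc (R : ℝ)⁻¹ * ‖x (nA i) - gp (nA i)‖ ≤ (R : ℝ)⁻¹ * (1 + √d) := by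
          apply mul_le_mul_of_nonneg_left _ (inv_pos.mpr hR0).le
          have := Real.sqrt_nonneg d
          linarith
      _ = (1 + √d) / R := by rw [div_eq_mul_inv, mul_comm]
      _ < η := hRη
  have hB : ∀ i, ‖(R : ℝ)⁻¹ • x (nB i) - axpt σ α i‖ < η := by
    intro i
    have e : (R : ℝ)⁻¹ • x (nB i) - axpt σ α i = (R : ℝ)⁻¹ • ((x (nB i) - gp (nB i)) +
        (gp (nB i) - (R : ℝ) • axpt σ α i)) := by
      rw [sub_add_sub_cancel, smul_sub, smul_smul, inv_mul_cancel₀ hRne, one_smul]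
    rw [e, norm_smul, hnormR]
    have h1 := hx (nB i) (hnB i)
    have h2 : ‖gp (nB i) - (R : ℝ) • axpt σ α i‖ ≤ √d := by
      apply norm_le_sqrt
      intro k
      simp only [gp, nB, PiLp.sub_apply, PiLp.smul_apply, smul_eq_mul]
      have h0 : 0 ≤ (R : ℝ) * axpt σ α i k := mul_nonneg hR0.le (hcoord i k).1
      have f1 := Nat.floor_le h0
      have f2 := Nat.lt_floor_add_one ((R : ℝ) * axpt σ α i k)
      rw [abs_le]
      constructor <;> linarith
    calc (R : ℝ)⁻¹ * ‖(x (nB i) - gp (nB i)) + (gp (nB i) - (R : ℝ) • axpt σ α i)‖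
        ≤ (R : ℝ)⁻¹ * (1 + √d) := by
          apply mul_le_mul_of_nonneg_left _ (inv_pos.mpr hR0).le
          exact (norm_add_le _ _).trans (add_le_add h1 h2)
      _ = (1 + √d) / R := by rw [div_eq_mul_inv, mul_comm]
      _ < η := hRη
  obtain ⟨P, hPP⟩ := hP _ _ hA hB
  refine ⟨(R : ℝ) • P, ?_⟩
  intro i
  obtain ⟨h1, h2, h3, h4⟩ := hPP i
  have key : ∀ y z : EE d, z = (R : ℝ)⁻¹ • y → y = (R : ℝ) • z := by
    intro y z h
    rw [h, smul_smul, mul_inv_cancel₀ hRne, one_smul]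
  refine ⟨nA i, nB i, hnA i, hnB i, ?_, ?_, ?_, ?_⟩
  · intro h
    apply h1
    rw [← h, smul_smul, inv_mul_cancel₀ hRne, one_smul]
  · intro h
    apply h2
    rw [← h, smul_smul, inv_mul_cancel₀ hRne, one_smul]
  · intro h
    apply h3
    rw [h]
  · rw [← h4]
    unfold EuclideanGeometry.angle
    simp only [vsub_eq_sub]
    have e1 : (R : ℝ) • P - x (nA i) = (R : ℝ) • (P - (R : ℝ)⁻¹ • x (nA i)) := by
      rw [smul_sub, smul_smul, mul_inv_cancel₀ hRne, one_smul]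
    have e2 : x (nB i) - x (nA i) =
        (R : ℝ) • ((R : ℝ)⁻¹ • x (nB i) - (R : ℝ)⁻¹ • x (nA i)) := by
      rw [smul_sub, smul_smul, smul_smul, mul_inv_cancel₀ hRne, one_smul, one_smul]
    rw [e1, e2, InnerProductGeometry.angle_smul_smul hRne]

end Pool.Agent.MP_87daae_co
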