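import Pool.Agent.MP_87daae_co.Deriv

/-! From infinitesimal rigidity to local realisability. -/

open scoped Topology
open Real Module

namespace Pool.Agent.MP_87daae_co

/-- a family of linearly independent functionals gives a surjective map -/
lemma pi_surjective {V : Type*} [AddCommGroup V] [Module ℝ V] {κ : Type*} [Fintype κ]
    [DecidableEq κ] (f : κ → (V →ₗ[ℝ] ℝ)) (hf : LinearIndependent ℝ f) :
    LinearMap.range (LinearMap.pi f) = ⊤ := by
  by_contra hne
  obtain ⟨φ, φ0, hle⟩ := (LinearMap.range (LinearMap.pi f)).exists_le_ker_of_lt_top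
    (lt_top_iff_ne_top.mpr hne)
  apply φ0
  have hφ : ∀ y : κ → ℝ, φ y = ∑ k, φ (Pi.single k 1) * y k := by
    intro y
    conv_lhs => rw [← LinearMap.sum_single_apply (fun _ => ℝ) y]
    rw [map_sum]
    apply Finset.sum_congr rfl
    intro k _
    have : (Pi.single k (y k) : κ → ℝ) = y k • Pi.single k (1 : ℝ) := by
      rw [← Pi.single_smul]; simp
    rw [this, map_smul, smul_eq_mul, mul_comm]
  have hsum : ∑ k, φ (Pi.single k 1) • f k = 0 := by
    ext v
    have := hle ⟨v, rfl⟩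
    rw [LinearMap.mem_ker, hφ] at this
    simpa [LinearMap.sum_apply] using this
  have h0 := Fintype.linearIndependent_iff.mp hf _ hsum
  ext k
  simp [h0 k]

variable {F : Type} [NormedAddCommGroup F] [InnerProductSpace ℝ F] [FiniteDimensional ℝ F]
  {Λ : Type} [Fintype Λ]

theorem local_real (p : Λ → F) (θ : ℝ) (hθ : 0 < θ) (hθ' : θ < π) (Q : Type) [Fintype Q]
    (N : (Λ → F) →ₗ[ℝ] (Q → ℝ))
    (hN : ∀ v, (∀ a b c, p a ≠ p b → p c ≠ p b →
      EuclideanGeometry.angle (p a) (p b) (p c) = θ → Rel p v a b c) → N v = 0 → v = 0) :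
    ∃ (n : ℕ) (ta tb tc : Fin n → Λ), finrank ℝ F * Fintype.card Λ ≤ n + Fintype.card Q ∧
      (∀ k, p (ta k) ≠ p (tb k) ∧ p (tc k) ≠ p (tb k) ∧ p (ta k) ≠ p (tc k)) ∧
      ∀ U ∈ 𝓝 p, ∃ δ > 0, ∀ y : Fin n → ℝ, (∀ k, |y k - θ| < δ) → ∃ x ∈ U, ∀ k,
        EuclideanGeometry.angle (x (ta k)) (x (tb k)) (x (tc k)) = y k := by
  classical
  let 𝒯 := {t : Λ × Λ × Λ // p t.1 ≠ p t.2.1 ∧ p t.2.2 ≠ p t.2.1 ∧
    EuclideanGeometry.angle (p t.1) (p t.2.1) (p t.2.2) = θ}
  have hex : ∀ t : 𝒯, ∃ ℓ : (Λ → F) →L[ℝ] ℝ,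
      HasStrictFDerivAt (fun x : Λ → F => cosAt x t.1.1 t.1.2.1 t.1.2.2) ℓ p ∧
      ∀ v, ℓ v = 0 → Rel p v t.1.1 t.1.2.1 t.1.2.2 :=
    fun t => deriv_cos p _ _ _ t.2.1 t.2.2.1
  choose ℓ hℓ hrel using hex
  let f : 𝒯 → ((Λ → F) →ₗ[ℝ] ℝ) := fun t => (ℓ t : (Λ → F) →ₗ[ℝ] ℝ)
  obtain ⟨κ, a, ha, hspan, hli⟩ := exists_linearIndependent' ℝ f
  have : Finite κ := Finite.of_injective a ha
  have : Fintype κ := Fintype.ofFinite κ
  let e := Fintype.equivFin κ
  let b : Fin (Fintype.card κ) → 𝒯 := fun k => a (e.symm k)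
  have hlib : LinearIndependent ℝ (f ∘ b) := by
    have : f ∘ b = (f ∘ a) ∘ e.symm := rfl
    rw [this]
    exact hli.comp _ e.symm.injective
  have hspan' : Submodule.span ℝ (Set.range (f ∘ b)) = Submodule.span ℝ (Set.range f) := by
    rw [← hspan]
    congr 1
    ext g
    constructor
    · rintro ⟨k, rfl⟩; exact ⟨e.symm k, rfl⟩
    · rintro ⟨k, rfl⟩; exact ⟨e k, by simp [b]⟩
  have hsurj := pi_surjective (f ∘ b) hlib
  refine ⟨Fintype.card κ, fun k => (b k).1.1, fun k => (b k).1.2.1, fun k => (b k).1.2.2, ?_, ?_, ?_⟩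
  · -- count
    let G : (Λ → F) →ₗ[ℝ] ((Fin (Fintype.card κ) → ℝ) × (Q → ℝ)) :=
      (LinearMap.pi (f ∘ b)).prod N
    have hinj : Function.Injective G := by
      rw [← LinearMap.ker_eq_bot, LinearMap.ker_eq_bot']
      intro v hv
      have h1 : LinearMap.pi (f ∘ b) v = 0 := congrArg Prod.fst hv
      have h2 : N v = 0 := congrArg Prod.snd hv
      apply hN v _ h2
      intro x y z hx hz hxyz
      let t : 𝒯 := ⟨(x, y, z), hx, hz, hxyz⟩
      apply hrel t
      have hmem : f t ∈ Submodule.span ℝ (Set.range (f ∘ b)) := by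
        rw [hspan']; exact Submodule.subset_span ⟨t, rfl⟩
      have : ∀ g ∈ Submodule.span ℝ (Set.range (f ∘ b)), g v = 0 := by
        intro g hg
        induction hg using Submodule.span_induction with
        | mem g hg =>
          obtain ⟨k, rfl⟩ := hg
          exact congrFun h1 k
        | zero => simp
        | add g g' _ _ h h' => simp [h, h']
        | smul c g _ h => simp [h]
      exact this _ hmem
    have := LinearMap.finrank_le_finrank_of_injective hinj
    rw [Module.finrank_pi_fintype, Module.finrank_prod, Module.finrank_pi, Module.finrank_pi,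
      Finset.sum_const, Finset.card_univ, smul_eq_mul, Fintype.card_fin] at this
    rw [mul_comm]; exact this
  · intro k
    refine ⟨(b k).2.1, (b k).2.2.1, ?_⟩
    intro h
    have h1 := (b k).2.2.2
    rw [h] at h1
    rw [EuclideanGeometry.angle_self_of_ne (b k).2.2.1] at h1
    exact hθ.ne h1
  · intro U hU
    let Φ : (Λ → F) → (Fin (Fintype.card κ) → ℝ) :=
      fun x k => cosAt x (b k).1.1 (b k).1.2.1 (b k).1.2.2
    have hΦ : HasStrictFDerivAt Φ (ContinuousLinearMap.pi fun k => ℓ (b k)) p := by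
      rw [hasStrictFDerivAt_pi]
      intro k; exact hℓ (b k)
    have hrange : (ContinuousLinearMap.pi fun k => ℓ (b k)).range = ⊤ := by
      rw [← hsurj]
      rfl
    have hmap := hΦ.map_nhds_eq_of_surj hrange
    have hΦp : Φ p = fun _ => cos θ := by
      funext k
      have h := (b k).2.2.2
      show cosAt p _ _ _ = cos θ
      refine Eq.trans ?_ (congrArg cos h)
      rw [cosAt_eq]
      unfold EuclideanGeometry.angle
      rw [InnerProductGeometry.cos_angle]
      rfl
    have hcont : Continuous (fun y : Fin (Fintype.card κ) → ℝ => fun k => cos (y k)) := by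
      fun_prop
    have hmem : Φ '' U ∈ 𝓝 (Φ p) := by
      rw [← hmap]; exact Filter.image_mem_map hU
    rw [hΦp] at hmem
    have hpre : (fun y : Fin (Fintype.card κ) → ℝ => fun k => cos (y k)) ⁻¹' (Φ '' U) ∈
        𝓝 (fun _ => θ) := hcont.continuousAt.preimage_mem_nhds hmem
    obtain ⟨δ, hδ, hball⟩ := Metric.mem_nhds_iff.mp hpre
    refine ⟨min δ (min θ (π - θ)), by
      simp only [gt_iff_lt, lt_min_iff]; exact ⟨hδ, hθ, by linarith⟩, ?_⟩
    intro y hy
    have hyb : y ∈ Metric.ball (fun _ => θ) δ := by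
      rw [mem_ball_iff_norm, pi_norm_lt_iff hδ]
      intro k
      have := hy k
      simp only [lt_min_iff] at this
      simpa using this.1
    obtain ⟨x, hxU, hx⟩ := hball hyb
    refine ⟨x, hxU, ?_⟩
    intro k
    have h1 : cosAt x (b k).1.1 (b k).1.2.1 (b k).1.2.2 = cos (y k) := congrFun hx k
    have hk := hy k
    simp only [lt_min_iff, abs_lt] at hk
    unfold EuclideanGeometry.angle InnerProductGeometry.angle
    rw [cosAt_eq] at h1
    simp only [vsub_eq_sub]
    rw [h1, arccos_cos (by linarith [hk.2.1.1]) (by linarith [hk.2.2.2])]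

end Pool.Agent.MP_87daae_co
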