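import Pool.Agent.MP_87daae_co.Generic

/-! Rigidity of the product sets for the right angle. -/

open Function

namespace Pool.Agent.MP_87daae_co

variable {d : ℕ}

/-- linearised relations for the right angle: axis pairs and diagonals -/
structure RH (L : ℕ) (v : (Fin d → ℝ) → Fin d → ℝ) : Prop where
  r1 : ∀ x, InT (TT L 1) x → ∀ i j, i ≠ j → ∀ s ∈ TT L 1, ∀ t ∈ TT L 1, s ≠ x i → t ≠ x j →
    (t - x j) * (v (update x i s) j - v x j) + (s - x i) * (v (update x j t) i - v x i) = 0
  r2 : ∀ x, InT (TT L 1) x → ∀ i j, i ≠ j → x i + 1 ∈ TT L 1 → x j + 1 ∈ TT L 1 →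
    x j - 1 ∈ TT L 1 →
    (v (update (update x i (x i + 1)) j (x j + 1)) i - v x i)
      - (v (update (update x i (x i + 1)) j (x j + 1)) j - v x j)
      + (v (update (update x i (x i + 1)) j (x j - 1)) i - v x i)
      + (v (update (update x i (x i + 1)) j (x j - 1)) j - v x j) = 0

/-- **Rigidity, right angle.** -/
theorem rigid_right {L : ℕ} {v : (Fin d → ℝ) → Fin d → ℝ} (hd : 3 ≤ d)
    (hL : 2 ≤ L) (H : RH L v)
    (N0 : v 0 = 0) (N1 : ∀ i j, i < j → v (update 0 i 1) j = 0)
    (i₀ : Fin d) (N2 : v (update 0 i₀ 1) i₀ = 0) :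
    ∀ x, InT (TT L 1) x → v x = 0 := by
  classical
  have other : ∀ r : ℝ, ∃ t ∈ TT L 1, t ≠ r := by
    intro r
    by_cases h : r = 0
    · exact ⟨1, TT_one hL, by rw [h]; norm_num⟩
    · exact ⟨0, TT_zero, fun h' => h h'.symm⟩
  have hA : ∀ i j, i ≠ j → ∀ x, InT (TT L 1) x → ∀ s ∈ TT L 1,
      v (update x i s) j = v (update x i 0) j + s * slope v i j x := by
    intro i j hij x hx s hs
    obtain ⟨t, ht, htne⟩ := other (x j)
    by_cases hs0 : s = 0
    · subst hs0; simp
    have h := fun s (hs : s ∈ TT L 1) (hs0 : s ≠ 0) =>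
      H.r1 (update x i 0) (hx.update i TT_zero) i j hij s hs t ht (by simpa using hs0)
        (by rw [update_of_ne hij.symm]; exact htne)
    simp only [update_idem, update_self, update_of_ne hij.symm, sub_zero] at h
    have h1 := h 1 (TT_one hL) one_ne_zero
    have h2 := h s hs hs0
    unfold slope
    have h3 : (t - x j) * v (update x i s) j = (t - x j) * (v (update x i 0) j +
        s * (v (update x i 1) j - v (update x i 0) j)) := by
      linear_combination h2 - s * h1
    exact mul_left_cancel₀ (sub_ne_zero.mpr htne) h3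
  have hB : ∀ i j, i ≠ j → ∀ x, InT (TT L 1) x → slope v i j x = - slope v j i x := by
    intro i j hij x hx
    obtain ⟨t, ht, htne⟩ := other (x j)
    obtain ⟨s, hs, hsne⟩ := other (x i)
    have h := H.r1 x hx i j hij s hs t ht hsne htne
    have a1 := hA i j hij x hx s hs
    have a2 := hA i j hij x hx (x i) (hx i)
    have b1 := hA j i hij.symm x hx t ht
    have b2 := hA j i hij.symm x hx (x j) (hx j)
    rw [update_eq_self] at a2 b2
    have h3 : (t - x j) * ((s - x i) * slope v i j x) =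
        (t - x j) * ((s - x i) * (- slope v j i x)) := by
      rw [a1, b1] at h
      linear_combination h + (t - x j) * a2 + (s - x i) * b2
    exact mul_left_cancel₀ (sub_ne_zero.mpr hsne) (mul_left_cancel₀ (sub_ne_zero.mpr htne) h3)
  have hz := slope_zero TT_zero (TT_one hL) hA hB N0 N1
  have hdep := comp_dep TT_zero hA hz
  have hzT : InT (TT L 1) (0 : Fin d → ℝ) := fun _ => TT_zero
  have e0 : ∀ i : Fin d, update (0 : Fin d → ℝ) i 0 = 0 := by
    intro i; funext k; by_cases hk : k = i
    · subst hk; simp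
    · simp [update_of_ne hk]
  have hsl : ∀ i j, i ≠ j → ∀ s : ℝ, s ∈ TT L 1 → s + 1 ∈ TT L 1 →
      2 * (v (update 0 i (s + 1)) i - v (update 0 i s) i) =
       (v (update 0 j 2) j - v (update 0 j 0) j) := by
    intro i j hij s hs hs1
    have h1T : (1 : ℝ) ∈ TT L 1 := TT_one hL
    have h2T : (2 : ℝ) ∈ TT L 1 := TT_two hL
    have hx : InT (TT L 1) (update (update (0 : Fin d → ℝ) i s) j 1) :=
      (hzT.update i hs).update j h1T
    have xi : (update (update (0 : Fin d → ℝ) i s) j 1) i = s := by simp [update_of_ne hij]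
    have xj : (update (update (0 : Fin d → ℝ) i s) j 1) j = 1 := by simp
    have h12 : (1 : ℝ) + 1 = 2 := by norm_num
    have h10 : (1 : ℝ) - 1 = 0 := by norm_num
    have B := H.r2 _ hx i j hij (by rw [xi]; exact hs1) (by rw [xj, h12]; exact h2T)
      (by rw [xj, h10]; exact TT_zero)
    rw [xi, xj, h12, h10] at B
    have hy : InT (TT L 1) (update (update (update (update (0 : Fin d → ℝ) i s) j 1) i (s + 1)) j
        2) := (hx.update i hs1).update j h2T
    have hy' : InT (TT L 1) (update (update (update (update (0 : Fin d → ℝ) i s) j 1) i (s + 1)) j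
        0) := (hx.update i hs1).update j TT_zero
    rw [hdep j _ hx, hdep i _ hx, hdep j _ hy, hdep i _ hy, hdep j _ hy', hdep i _ hy', xi, xj]
      at B
    simp only [update_self, update_of_ne hij] at B
    linarith
  have h01 : ∃ j₁ j₂ : Fin d, j₁ ≠ i₀ ∧ j₂ ≠ i₀ ∧ j₁ ≠ j₂ := by
    have hc : 1 < (Finset.univ.erase i₀).card := by
      rw [Finset.card_erase_of_mem (Finset.mem_univ _), Finset.card_univ, Fintype.card_fin]
      omega
    obtain ⟨a, ha, b, hb, hab⟩ := Finset.one_lt_card.mp hc
    exact ⟨a, b, by simpa using ha, by simpa using hb, hab⟩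
  obtain ⟨j₁, j₂, hj1, hj2, hj12⟩ := h01
  have hk : ∀ j, j ≠ i₀ → v (update 0 j 2) j - v (update 0 j 0) j = 0 := by
    intro j hj
    have := hsl i₀ j hj.symm 0 TT_zero (by simpa using TT_one hL)
    rw [← this, zero_add, N2, e0, N0]; simp
  have hl : ∀ i s, s ∈ TT L 1 → s + 1 ∈ TT L 1 →
      v (update 0 i (s + 1)) i - v (update 0 i s) i = 0 := by
    intro i s hs hs1
    have : ∃ j, j ≠ i₀ ∧ i ≠ j := by
      by_cases h : i = j₁
      · exact ⟨j₂, hj2, by rw [h]; exact hj12⟩
      · exact ⟨j₁, hj1, h⟩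
    obtain ⟨j, hj, hij⟩ := this
    have h1 := hsl i j hij s hs hs1
    rw [hk j hj] at h1
    linarith
  have hax : ∀ i, ∀ a b : ℕ, a ≤ L → b ≤ L → v (update 0 i ((a : ℝ) + b * 1)) i = 0 := by
    intro i a b
    induction b with
    | zero =>
      induction a with
      | zero => intro _ _; simp [e0, N0]
      | succ a ih =>
        intro ha hb
        have h1 := ih (by omega) hb
        have := hl i ((a : ℝ) + (0 : ℕ) * 1) ⟨a, 0, by omega, by omega, rfl⟩
          ⟨a + 1, 0, by omega, by omega, by push_cast; ring⟩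
        have e : ((a + 1 : ℕ) : ℝ) + (0 : ℕ) * 1 = (a : ℝ) + (0 : ℕ) * 1 + 1 := by
          push_cast; ring
        rw [e]; linarith
    | succ b ih =>
      intro ha hb
      have h1 := ih ha (by omega)
      have := hl i ((a : ℝ) + b * 1) ⟨a, b, ha, by omega, rfl⟩
        ⟨a, b + 1, ha, hb, by push_cast; ring⟩
      have e : (a : ℝ) + ((b + 1 : ℕ) : ℝ) * 1 = (a : ℝ) + b * 1 + 1 := by
        push_cast; ring
      rw [e]; linarith
  intro x hx
  funext j
  rw [hdep j x hx]
  obtain ⟨a, b, ha, hb, hab⟩ := hx j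
  rw [hab]
  exact hax j a b ha hb

end Pool.Agent.MP_87daae_co
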