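import Mathlib

/-! Linear algebra of the rigid product sets. -/

open Function

namespace Pool.Agent.MP_87daae_co

variable {d : ℕ}

/-- all coordinates lie in `T` -/
def InT (T : Set ℝ) (x : Fin d → ℝ) : Prop := ∀ i, x i ∈ T

/-- slope of the `j`-th component along the `i`-th axis -/
def slope (v : (Fin d → ℝ) → Fin d → ℝ) (i j : Fin d) (x : Fin d → ℝ) : ℝ :=
  v (update x i 1) j - v (update x i 0) j

lemma InT.update {T : Set ℝ} {x : Fin d → ℝ} (hx : InT T x) (i : Fin d) {s : ℝ} (hs : s ∈ T) :
    InT T (update x i s) := by
  intro k
  by_cases h : k = i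
  · subst h; simpa using hs
  · simpa [Function.update_of_ne h] using hx k

lemma const_of_update {T : Set ℝ} (F : (Fin d → ℝ) → ℝ) (S : Finset (Fin d))
    (hF : ∀ x, InT T x → ∀ k ∈ S, ∀ u ∈ T, F (update x k u) = F x) :
    ∀ x y, InT T x → InT T y → (∀ k, k ∉ S → x k = y k) → F x = F y := by
  classical
  induction S using Finset.induction_on with
  | empty =>
    intro x y _ _ h
    have : x = y := by
      funext k; exact h k (by simp)
    rw [this]
  | insert a S ha ih =>
    intro x y hx hy h
    have h1 : F (update x a (y a)) = F x := hF x hx a (by simp) _ (hy a)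
    rw [← h1]
    apply ih (fun x hx k hk u hu => hF x hx k (by simp [hk]) u hu) _ _ (hx.update a (hy a)) hy
    intro k hk
    by_cases hka : k = a
    · subst hka; simp
    · rw [Function.update_of_ne hka]
      exact h k (by simp [hka, hk])

lemma slope_update_self (v : (Fin d → ℝ) → Fin d → ℝ) (i j : Fin d) (x : Fin d → ℝ) (s : ℝ) :
    slope v i j (update x i s) = slope v i j x := by
  simp [slope, Function.update_idem]

/-- The Levi-Civita argument: slopes are constant. -/
lemma slope_const {T : Set ℝ} (h0 : (0 : ℝ) ∈ T) (h1 : (1 : ℝ) ∈ T)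
    (v : (Fin d → ℝ) → Fin d → ℝ)
    (hA : ∀ i j, i ≠ j → ∀ x, InT T x → ∀ s ∈ T,
      v (update x i s) j = v (update x i 0) j + s * slope v i j x)
    (hB : ∀ i j, i ≠ j → ∀ x, InT T x → slope v i j x = - slope v j i x) :
    ∀ i j, i ≠ j → ∀ x y, InT T x → InT T y → slope v i j x = slope v i j y := by
  classical
  have key : ∀ i j k, i ≠ j → k ≠ i → k ≠ j → ∀ x, InT T x → ∀ u ∈ T,
      slope v i j (update x k u) - slope v i j (update x k 0)
        = u * (slope v k j (update x i 1) - slope v k j (update x i 0)) := by
    intro i j k hij hki hkj x hx u hu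
    have e1 := hA k j hkj (update x i 1) (hx.update i h1) u hu
    have e0 := hA k j hkj (update x i 0) (hx.update i h0) u hu
    have c1 : ∀ a b : ℝ, update (update x k a) i b = update (update x i b) k a := by
      intro a b; exact Function.update_comm hki a b x
    unfold slope at *
    rw [c1, c1, c1, c1]
    linarith
  have csym : ∀ i j k, i ≠ j → k ≠ i → k ≠ j → ∀ x, InT T x →
      slope v i j (update x k 1) - slope v i j (update x k 0)
        = slope v k j (update x i 1) - slope v k j (update x i 0) := by
    intro i j k hij hki hkj x hx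
    have := key i j k hij hki hkj x hx 1 h1
    linarith
  have casym : ∀ i j k, i ≠ j → ∀ x, InT T x →
      slope v i j (update x k 1) - slope v i j (update x k 0)
        = -(slope v j i (update x k 1) - slope v j i (update x k 0)) := by
    intro i j k hij x hx
    have a1 := hB i j hij _ (hx.update k h1)
    have a0 := hB i j hij _ (hx.update k h0)
    linarith
  have czero : ∀ i j k, i ≠ j → k ≠ i → k ≠ j → ∀ x, InT T x →
      slope v k j (update x i 1) - slope v k j (update x i 0) = 0 := by
    intro i j k hij hki hkj x hx
    -- c i k j := slope i j (k)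
    have s1 := csym i j k hij hki hkj x hx
    have s2 := casym k j i hkj x hx
    have s3 := csym j k i (Ne.symm hkj) hij hki.symm x hx
    have s4 := casym i k j hki.symm x hx
    have s5 := csym k i j hki (Ne.symm hkj) hij.symm x hx
    have s6 := casym j i k hij.symm x hx
    linarith
  have hup : ∀ i j, i ≠ j → ∀ x, InT T x → ∀ k, ∀ u ∈ T,
      slope v i j (update x k u) = slope v i j x := by
    intro i j hij x hx k u hu
    by_cases hki : k = i
    · subst hki; exact slope_update_self v _ _ _ _
    by_cases hkj : k = j
    · subst hkj
      rw [hB i k hij _ (hx.update k hu), slope_update_self, hB i k hij x hx]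
    have e1 := key i j k hij hki hkj x hx u hu
    have e2 := key i j k hij hki hkj x hx (x k) (hx k)
    rw [czero i j k hij hki hkj x hx] at e1 e2
    rw [Function.update_eq_self] at e2
    linarith
  intro i j hij x y hx hy
  exact const_of_update (T := T) (slope v i j) Finset.univ
    (fun x hx k _ u hu => hup i j hij x hx k u hu) x y hx hy (by simp)

end Pool.Agent.MP_87daae_co
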