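import Pool.Agent.MP_87daae_co.Grid
import Pool.Agent.MP_87daae_co.Right

/-! The rigid configurations in Euclidean space. -/

open Function Real Module

namespace Pool.Agent.MP_87daae_co

variable {d : ℕ}

lemma inner_single' (i : Fin d) (a : ℝ) (w : EE d) :
    inner ℝ w (EuclideanSpace.single i a) = a * w i := by
  rw [real_inner_comm, inner_single]

lemma normsq_single (i : Fin d) (a : ℝ) :
    ‖(EuclideanSpace.single i a : EE d)‖ ^ 2 = a ^ 2 := by
  rw [← real_inner_self_eq_norm_sq, inner_single]
  simp; ring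

lemma normsq_two {i j : Fin d} (hij : i ≠ j) (a b : ℝ) :
    ‖(EuclideanSpace.single i a + EuclideanSpace.single j b : EE d)‖ ^ 2 = a ^ 2 + b ^ 2 := by
  rw [← real_inner_self_eq_norm_sq, inner_add_left, inner_single, inner_single]
  simp only [PiLp.add_apply, PiLp.single_apply, if_neg hij, if_neg hij.symm, if_true]
  ring

lemma inner_one_two {i j : Fin d} (hij : i ≠ j) (h a b : ℝ) :
    inner ℝ (EuclideanSpace.single i h : EE d)
      (EuclideanSpace.single i a + EuclideanSpace.single j b) = h * a := by
  rw [inner_single]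
  simp only [PiLp.add_apply, PiLp.single_apply, if_neg hij, if_true]
  ring

/-- unpacking the relation for a slanted triple -/
lemma rel_slant {i j : Fin d} (hij : i ≠ j) {h δ ε τ : ℝ} (hh : h ≠ 0) (hτ : 0 < τ)
    (hδ : δ = 1 ∨ δ = -1) (hε : ε = 1 ∨ ε = -1) (X' Y' : EE d)
    (hrel : (inner ℝ X' (EuclideanSpace.single i δ + EuclideanSpace.single j (ε * τ)) +
        inner ℝ (EuclideanSpace.single i h) Y') *
        (‖(EuclideanSpace.single i h : EE d)‖ ^ 2 *
          ‖(EuclideanSpace.single i δ + EuclideanSpace.single j (ε * τ) : EE d)‖ ^ 2) =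
      inner ℝ (EuclideanSpace.single i h : EE d)
          (EuclideanSpace.single i δ + EuclideanSpace.single j (ε * τ)) *
        (inner ℝ (EuclideanSpace.single i h) X' *
            ‖(EuclideanSpace.single i δ + EuclideanSpace.single j (ε * τ) : EE d)‖ ^ 2 +
          ‖(EuclideanSpace.single i h : EE d)‖ ^ 2 *
            inner ℝ (EuclideanSpace.single i δ + EuclideanSpace.single j (ε * τ)) Y')) :
    (1 + τ ^ 2) * X' j = h * (δ * Y' j - ε * τ * Y' i) := by
  rw [normsq_single, normsq_two hij, inner_one_two hij, inner_add_right, inner_add_left,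
    inner_single', inner_single', inner_single, inner_single, inner_single, inner_single] at hrel
  have hδ2 : δ ^ 2 = 1 := by rcases hδ with rfl | rfl <;> norm_num
  have hε2 : ε ^ 2 = 1 := by rcases hε with rfl | rfl <;> norm_num
  have h2 : (ε * τ) ^ 2 = τ ^ 2 := by rw [mul_pow, hε2, one_mul]
  rw [hδ2, h2] at hrel
  have h3 : (h ^ 2 * τ) * (ε * ((1 + τ ^ 2) * X' j)) =
      (h ^ 2 * τ) * (ε * (h * (δ * Y' j - ε * τ * Y' i))) := by
    linear_combination hrel + h ^ 3 * Y' i * hδ2 + h ^ 3 * τ ^ 2 * Y' i * hε2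
  have h4 : (h ^ 2 * τ) ≠ 0 := mul_ne_zero (pow_ne_zero 2 hh) hτ.ne'
  have h5 : ε ≠ 0 := by rcases hε with rfl | rfl <;> norm_num
  exact mul_left_cancel₀ h5 (mul_left_cancel₀ h4 h3)

lemma angle_slant {i j : Fin d} (hij : i ≠ j) {h δ ε τ ω θ : ℝ}
    (hδ : δ = 1 ∨ δ = -1) (hε : ε = 1 ∨ ε = -1) (hω : ω = 1 ∨ ω = -1) (hpos : 0 < ω * δ * h)
    (hcos : cos θ = ω / √(1 + τ ^ 2)) (h0 : 0 < θ) (hπ : θ < π) :
    InnerProductGeometry.angle (EuclideanSpace.single i h : EE d)
      (EuclideanSpace.single i δ + EuclideanSpace.single j (ε * τ)) = θ := by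
  have hδ2 : δ ^ 2 = 1 := by rcases hδ with rfl | rfl <;> norm_num
  have hε2 : ε ^ 2 = 1 := by rcases hε with rfl | rfl <;> norm_num
  have hn1 : ‖(EuclideanSpace.single i h : EE d)‖ = ω * δ * h := by
    have h1 := normsq_single i h
    have h2 : (ω * δ * h) ^ 2 = h ^ 2 := by
      rw [mul_pow, mul_pow, hδ2]
      rcases hω with rfl | rfl <;> ring
    rw [← h2] at h1
    exact (pow_left_inj₀ (norm_nonneg _) hpos.le two_ne_zero).mp h1
  have hn2 : ‖(EuclideanSpace.single i δ + EuclideanSpace.single j (ε * τ) : EE d)‖ =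
      √(1 + τ ^ 2) := by
    have h1 := normsq_two hij δ (ε * τ)
    rw [hδ2, mul_pow, hε2, one_mul] at h1
    rw [← h1, Real.sqrt_sq (norm_nonneg _)]
  unfold InnerProductGeometry.angle
  rw [inner_one_two hij, hn1, hn2]
  have hs : 0 < √(1 + τ ^ 2) := Real.sqrt_pos.mpr (by positivity)
  have hh : h ≠ 0 := by rintro rfl; simp at hpos
  have e : h * δ / (ω * δ * h * √(1 + τ ^ 2)) = ω / √(1 + τ ^ 2) := by
    rcases hω with rfl | rfl <;> rcases hδ with rfl | rfl <;> field_simp
  rw [e, ← hcos, arccos_cos h0.le hπ.le]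

instance TT_finite (L : ℕ) (τ : ℝ) : Finite (TT L τ) := by
  have : Set.Finite (TT L τ) := by
    have : TT L τ ⊆ (fun q : ℕ × ℕ => (q.1 : ℝ) + q.2 * τ) '' (Set.Iic L ×ˢ Set.Iic L) := by
      rintro t ⟨a, b, ha, hb, rfl⟩
      exact ⟨(a, b), ⟨ha, hb⟩, rfl⟩
    exact Set.Finite.subset (((Set.finite_Iic L).prod (Set.finite_Iic L)).image _) this
  exact this

/-- index type of the configuration -/
def Lam (d L : ℕ) (τ : ℝ) : Type := {x : Fin d → ℝ // InT (TT L τ) x}

noncomputable instance (d L : ℕ) (τ : ℝ) : Fintype (Lam d L τ) := by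
  haveI : Finite (Lam d L τ) := by
    apply Finite.of_injective (β := Fin d → TT L τ) (fun x i => ⟨x.1 i, x.2 i⟩)
    intro x y h
    apply Subtype.ext
    funext i
    exact congrArg Subtype.val (congrFun h i)
  exact Fintype.ofFinite _

/-- the configuration -/
noncomputable def conf (d L : ℕ) (τ : ℝ) (x : Lam d L τ) : EE d := WithLp.toLp 2 x.1

lemma conf_injective (d L : ℕ) (τ : ℝ) : Injective (conf d L τ) := by
  intro x y h
  apply Subtype.ext
  funext i
  have := congrArg (fun w : EE d => w i) h
  exact this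

/-- normalisation functionals -/
noncomputable def Nmap (d L : ℕ) (τ : ℝ) (z : Lam d L τ) (e : Fin d → Lam d L τ) (i₀ : Fin d) :
    (Lam d L τ → EE d) →ₗ[ℝ] ((Sym2 (Fin d) ⊕ Unit) → ℝ) where
  toFun v q := match q with
    | Sum.inl q => if q.inf = q.sup then v z q.sup else v (e q.inf) q.sup
    | Sum.inr _ => v (e i₀) i₀
  map_add' v w := by
    funext q
    rcases q with q | q
    · simp only [Pi.add_apply, PiLp.add_apply]
      split_ifs <;> rfl
    · simp
  map_smul' c v := by
    funext q
    rcases q with q | q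
    · simp only [Pi.smul_apply, PiLp.smul_apply, RingHom.id_apply]
      split_ifs <;> rfl
    · simp

/-- extension of a velocity field by zero -/
noncomputable def extV {L : ℕ} {τ : ℝ} (v : Lam d L τ → EE d) : (Fin d → ℝ) → Fin d → ℝ := by
  classical
  exact fun x j => if h : InT (TT L τ) x then v ⟨x, h⟩ j else 0

lemma extV_apply {L : ℕ} {τ : ℝ} (v : Lam d L τ → EE d) (x : Fin d → ℝ) (h : InT (TT L τ) x)
    (j : Fin d) : extV v x j = v ⟨x, h⟩ j := by
  unfold extV
  rw [dif_pos h]

lemma zero_InT (L : ℕ) (τ : ℝ) : InT (TT L τ) (0 : Fin d → ℝ) := fun _ => TT_zero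

theorem rigid_conf (hd : 3 ≤ d) (L : ℕ) (hL : 2 ≤ L) (θ : ℝ) (h0 : 0 < θ) (hπ : θ < π) :
    ∃ (τ : ℝ) (N : (Lam d L τ → EE d) →ₗ[ℝ] ((Sym2 (Fin d) ⊕ Unit) → ℝ)),
      ∀ v, (∀ a b c, conf d L τ a ≠ conf d L τ b → conf d L τ c ≠ conf d L τ b →
        EuclideanGeometry.angle (conf d L τ a) (conf d L τ b) (conf d L τ c) = θ →
        Rel (conf d L τ) v a b c) → N v = 0 → v = 0 := by
  classical
  have i₀ : Fin d := ⟨0, by omega⟩
  -- common consequences of `N v = 0`
  have hNcons : ∀ τ : ℝ, ∀ v : Lam d L τ → EE d,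
      Nmap d L τ ⟨0, zero_InT L τ⟩ (fun i => ⟨update 0 i 1, (zero_InT L τ).update i (TT_one hL)⟩)
        i₀ v = 0 →
      extV v 0 = 0 ∧ (∀ i j, i < j → extV v (update 0 i 1) j = 0) ∧
        extV v (update 0 i₀ 1) i₀ = 0 := by
    intro τ v hv
    refine ⟨?_, ?_, ?_⟩
    · funext i
      have := congrFun hv (Sum.inl s(i, i))
      simp only [Nmap, LinearMap.coe_mk, AddHom.coe_mk, Sym2.inf_mk, Sym2.sup_mk, inf_idem,
        sup_idem, if_true] at this
      rw [extV_apply v 0 (zero_InT L τ)]
      exact this
    · intro i j hij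
      have := congrFun hv (Sum.inl s(i, j))
      simp only [Nmap, LinearMap.coe_mk, AddHom.coe_mk, Sym2.inf_mk, Sym2.sup_mk,
        inf_eq_left.mpr hij.le, sup_eq_right.mpr hij.le, if_neg hij.ne] at this
      rw [extV_apply v _ ((zero_InT L τ).update i (TT_one hL))]
      exact this
    · have := congrFun hv (Sum.inr ())
      simp only [Nmap, LinearMap.coe_mk, AddHom.coe_mk] at this
      rw [extV_apply v _ ((zero_InT L τ).update i₀ (TT_one hL))]
      exact this
  have hfin : ∀ τ : ℝ, ∀ v : Lam d L τ → EE d, (∀ x, InT (TT L τ) x → extV v x = 0) → v = 0 := by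
    intro τ v h
    funext x
    ext j
    have := congrFun (h x.1 x.2) j
    rw [extV_apply v x.1 x.2] at this
    exact this
  by_cases hright : θ = π / 2
  · -- right angle
    refine ⟨1, Nmap d L 1 ⟨0, zero_InT L 1⟩
      (fun i => ⟨update 0 i 1, (zero_InT L 1).update i (TT_one hL)⟩) i₀, ?_⟩
    intro v hrel hN
    obtain ⟨N0, N1, N2⟩ := hNcons 1 v hN
    apply hfin
    have key : ∀ a b c : Lam d L 1, conf d L 1 a ≠ conf d L 1 b → conf d L 1 c ≠ conf d L 1 b →
        inner ℝ (conf d L 1 a - conf d L 1 b) (conf d L 1 c - conf d L 1 b) = (0 : ℝ) →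
        inner ℝ (v a - v b) (conf d L 1 c - conf d L 1 b) +
          inner ℝ (conf d L 1 a - conf d L 1 b) (v c - v b) = (0 : ℝ) := by
      intro a b c hab hcb hin
      have hang : EuclideanGeometry.angle (conf d L 1 a) (conf d L 1 b) (conf d L 1 c) = θ := by
        rw [hright]
        unfold EuclideanGeometry.angle
        exact InnerProductGeometry.inner_eq_zero_iff_angle_eq_pi_div_two _ _ |>.mp hin
      have hr := hrel a b c hab hcb hang
      unfold Rel at hr
      rw [hin, zero_mul] at hr
      have hne : ‖conf d L 1 a - conf d L 1 b‖ ^ 2 * ‖conf d L 1 c - conf d L 1 b‖ ^ 2 ≠ 0 := by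
        have h1 : ‖conf d L 1 a - conf d L 1 b‖ ≠ 0 := norm_ne_zero_iff.mpr (sub_ne_zero.mpr hab)
        have h2 : ‖conf d L 1 c - conf d L 1 b‖ ≠ 0 := norm_ne_zero_iff.mpr (sub_ne_zero.mpr hcb)
        positivity
      exact (mul_eq_zero.mp hr).resolve_right hne
    refine rigid_right hd hL ⟨?_, ?_⟩ N0 N1 i₀ N2
    · intro x hx i j hij s hs t ht hsx htx
      have e1 : conf d L 1 ⟨update x i s, hx.update i hs⟩ - conf d L 1 ⟨x, hx⟩ =
          EuclideanSpace.single i (s - x i) := by
        ext k
        simp only [conf, PiLp.sub_apply, PiLp.single_apply]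
        by_cases hk : k = i
        · subst hk; simp
        · simp [update_of_ne hk, hk]
      have e2 : conf d L 1 ⟨update x j t, hx.update j ht⟩ - conf d L 1 ⟨x, hx⟩ =
          EuclideanSpace.single j (t - x j) := by
        ext k
        simp only [conf, PiLp.sub_apply, PiLp.single_apply]
        by_cases hk : k = j
        · subst hk; simp
        · simp [update_of_ne hk, hk]
      have k1 := key ⟨update x i s, hx.update i hs⟩ ⟨x, hx⟩ ⟨update x j t, hx.update j ht⟩
        (by
          intro h
          have := congrFun (congrArg Subtype.val (conf_injective d L 1 h)) i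
          simp at this; exact hsx this)
        (by
          intro h
          have := congrFun (congrArg Subtype.val (conf_injective d L 1 h)) j
          simp at this; exact htx this)
        (by rw [e1, e2, inner_single]; simp [hij])
      rw [e1, e2, inner_single, inner_single'] at k1
      rw [extV_apply v _ (hx.update i hs), extV_apply v _ hx, extV_apply v _ (hx.update j ht),
        extV_apply v _ hx]
      exact k1
    · intro x hx i j hij h1 h2 h3
      have hy1 : InT (TT L 1) (update (update x i (x i + 1)) j (x j + 1)) :=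
        (hx.update i h1).update j h2
      have hy2 : InT (TT L 1) (update (update x i (x i + 1)) j (x j - 1)) :=
        (hx.update i h1).update j h3
      have e1 : conf d L 1 ⟨_, hy1⟩ - conf d L 1 ⟨x, hx⟩ =
          EuclideanSpace.single i 1 + EuclideanSpace.single j 1 := by
        ext k
        simp only [conf, PiLp.sub_apply, PiLp.add_apply, PiLp.single_apply]
        by_cases hk : k = j
        · subst hk; simp [hij.symm]
        · by_cases hk' : k = i
          · subst hk'; simp [update_of_ne hk, hk]
          · simp [update_of_ne hk, hk, hk']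
      have e2 : conf d L 1 ⟨_, hy2⟩ - conf d L 1 ⟨x, hx⟩ =
          EuclideanSpace.single i 1 + EuclideanSpace.single j (-1) := by
        ext k
        simp only [conf, PiLp.sub_apply, PiLp.add_apply, PiLp.single_apply]
        by_cases hk : k = j
        · subst hk; simp [hij.symm]
        · by_cases hk' : k = i
          · subst hk'; simp [update_of_ne hk, hk]
          · simp [update_of_ne hk, hk, hk']
      have k1 := key ⟨_, hy1⟩ ⟨x, hx⟩ ⟨_, hy2⟩
        (by
          intro h
          have := congrFun (congrArg Subtype.val (conf_injective d L 1 h)) j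
          simp at this)
        (by
          intro h
          have := congrFun (congrArg Subtype.val (conf_injective d L 1 h)) j
          simp at this)
        (by
          rw [e1, e2, inner_add_left, inner_single, inner_single]
          simp [hij, hij.symm])
      rw [e1, e2, inner_add_left, inner_add_right, inner_single, inner_single, inner_single',
        inner_single'] at k1
      rw [extV_apply v _ hy1, extV_apply v _ hx, extV_apply v _ hy1, extV_apply v _ hx,
        extV_apply v _ hy2, extV_apply v _ hy2]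
      simp only [PiLp.sub_apply] at k1
      linarith
  · -- generic angle
    have hcne : cos θ ≠ 0 := by
      intro h
      apply hright
      have h1 := arccos_cos h0.le hπ.le
      rw [h, arccos_zero] at h1
      exact h1.symm
    have hsin : 0 < sin θ := sin_pos_of_pos_of_lt_pi h0 hπ
    obtain ⟨ω, hω, hωc⟩ : ∃ ω : ℝ, (ω = 1 ∨ ω = -1) ∧ |cos θ| = ω * cos θ := by
      rcases abs_cases (cos θ) with ⟨h, _⟩ | ⟨h, _⟩
      · exact ⟨1, Or.inl rfl, by rw [h]; ring⟩
      · exact ⟨-1, Or.inr rfl, by rw [h]; ring⟩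
    have habs : 0 < |cos θ| := abs_pos.mpr hcne
    set τ : ℝ := sin θ / |cos θ| with hτdef
    have hτ : 0 < τ := div_pos hsin habs
    have hcos : cos θ = ω / √(1 + τ ^ 2) := by
      have h1 : 1 + τ ^ 2 = (1 / |cos θ|) ^ 2 := by
        rw [hτdef]
        field_simp
        rw [add_comm, sq_abs, sin_sq_add_cos_sq]
      rw [h1, Real.sqrt_sq (by positivity), div_div_eq_mul_div, div_one, hωc, ← mul_assoc]
      rcases hω with rfl | rfl <;> ring
    refine ⟨τ, Nmap d L τ ⟨0, zero_InT L τ⟩
      (fun i => ⟨update 0 i 1, (zero_InT L τ).update i (TT_one hL)⟩) i₀, ?_⟩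
    intro v hrel hN
    obtain ⟨N0, N1, N2⟩ := hNcons τ v hN
    apply hfin
    refine rigid_generic hd hL hτ hω ?_ N0 N1 i₀ N2
    intro x hx i j hij s hs δ ε hδ hε hi hj hpos
    have hy : InT (TT L τ) (update (update x i (x i + δ)) j (x j + ε * τ)) :=
      (hx.update i hi).update j hj
    have e1 : conf d L τ ⟨update x i s, hx.update i hs⟩ - conf d L τ ⟨x, hx⟩ =
        EuclideanSpace.single i (s - x i) := by
      ext k
      simp only [conf, PiLp.sub_apply, PiLp.single_apply]
      by_cases hk : k = i
      · subst hk; simp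
      · simp [update_of_ne hk, hk]
    have e2 : conf d L τ ⟨_, hy⟩ - conf d L τ ⟨x, hx⟩ =
        EuclideanSpace.single i δ + EuclideanSpace.single j (ε * τ) := by
      ext k
      simp only [conf, PiLp.sub_apply, PiLp.add_apply, PiLp.single_apply]
      by_cases hk : k = j
      · subst hk; simp [hij.symm]
      · by_cases hk' : k = i
        · subst hk'; simp [update_of_ne hk, hk]
        · simp [update_of_ne hk, hk, hk']
    have hsne : s - x i ≠ 0 := by
      intro h; rw [h] at hpos; simp at hpos
    have hδne : δ ≠ 0 := by rcases hδ with rfl | rfl <;> norm_num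
    have hr := hrel ⟨update x i s, hx.update i hs⟩ ⟨x, hx⟩ ⟨_, hy⟩
      (by
        intro h
        have := congrFun (congrArg Subtype.val (conf_injective d L τ h)) i
        simp at this; exact hsne (sub_eq_zero.mpr this))
      (by
        intro h
        have := congrFun (congrArg Subtype.val (conf_injective d L τ h)) i
        simp [update_of_ne hij] at this; exact hδne this)
      (by
        unfold EuclideanGeometry.angle
        simp only [vsub_eq_sub]
        rw [e1, e2]
        exact angle_slant hij hδ hε hω hpos hcos h0 hπ)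
    unfold Rel at hr
    rw [e1, e2] at hr
    have := rel_slant hij hsne hτ hδ hε _ _ hr
    rw [extV_apply v _ (hx.update i hs), extV_apply v _ hx, extV_apply v _ hy,
      extV_apply v _ hx, extV_apply v _ hy]
    simp only [PiLp.sub_apply] at this
    exact this

end Pool.Agent.MP_87daae_co
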